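import Pool.Agent.K9h52.Ind3

/-!
K9h52: the mean square of the frequencies of the sign patterns over the subsets of a set of places.
-/

set_option autoImplicit false

namespace Pool.Agent.K9h52.Avg

open Finset Filter Topology
open Pool.Agent.R509.TT (l l_pm)
open Pool.Agent.K9h52.Ind

/-- correlation at scale `N` -/
noncomputable def co (N : ℕ) (A : Finset ℕ) : ℝ := (∑ n ∈ range N, ∏ h ∈ A, l (n + h)) / N

lemma co_abs (N : ℕ) (A : Finset ℕ) : |co N A| ≤ 1 := by
  unfold co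
  rcases Nat.eq_zero_or_pos N with h | h
  · subst h; simp
  have hN0 : (0 : ℝ) < N := by exact_mod_cast h
  rw [abs_div, abs_of_pos hN0, div_le_one hN0]
  refine (abs_sum_le_sum_abs _ _).trans ?_
  rw [sum_congr rfl fun n _ => prod_abs A n]
  simp

lemma exists_lim (U : Ultrafilter ℕ) : ∃ c : Finset ℕ → ℝ, ∀ A,
    Tendsto (fun N => co N A) (U : Filter ℕ) (𝓝 (c A)) := by
  have h : ∀ A : Finset ℕ, ∃ x : ℝ, Tendsto (fun N => co N A) (U : Filter ℕ) (𝓝 x) := by
    intro A
    have hc : IsCompact (Set.Icc (-1 : ℝ) 1) := isCompact_Icc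
    obtain ⟨x, -, hx⟩ := hc.ultrafilter_le_nhds (U.map fun N => co N A) (by
      rw [Ultrafilter.coe_map, le_principal_iff]
      exact Filter.mem_map.2 (Filter.Eventually.of_forall fun N => abs_le.1 (co_abs N A)))
    exact ⟨x, hx⟩
  choose c hc using h
  exact ⟨c, hc⟩

lemma lim_empty {U : Ultrafilter ℕ} (hU : (U : Filter ℕ) ≤ atTop) {c : Finset ℕ → ℝ}
    (hc : ∀ A, Tendsto (fun N => co N A) (U : Filter ℕ) (𝓝 (c A))) : c ∅ = 1 := by
  have h1 : Tendsto (fun N => co N ∅) (U : Filter ℕ) (𝓝 1) := by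
    refine Tendsto.congr' ?_ tendsto_const_nhds
    filter_upwards [hU (eventually_ge_atTop 1)] with N hN
    have hN0 : (0 : ℝ) < N := by exact_mod_cast hN
    unfold co
    simp [hN0.ne']
  exact tendsto_nhds_unique (hc ∅) h1

/-- Bessel's inequality in the limit -/
lemma bessel_lim {U : Ultrafilter ℕ} (hU : (U : Filter ℕ) ≤ atTop) {E : Set ℕ} (hE : Two E)
    (hUE : ∀ᶠ N in (U : Filter ℕ), N ∉ E) {c : Finset ℕ → ℝ}
    (hc : ∀ A, Tendsto (fun N => co N A) (U : Filter ℕ) (𝓝 (c A))) (T A : Finset ℕ)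
    (hTA : ∀ a ∈ T, a ∉ A) : ∑ a ∈ T, c (insert a A) ^ 2 ≤ 1 := by
  have key : ∀ η : ℝ, 0 < η → ∑ a ∈ T, c (insert a A) ^ 2 ≤ 1 + η * (T.card : ℝ) ^ 2 := by
    intro η hη
    have h1 : Tendsto (fun N => ∑ a ∈ T, co N (insert a A) ^ 2) (U : Filter ℕ)
        (𝓝 (∑ a ∈ T, c (insert a A) ^ 2)) := tendsto_finsetSum _ fun a _ => (hc _).pow 2
    refine le_of_tendsto h1 ?_
    have h2 : ∀ᶠ N in (U : Filter ℕ), ∀ a ∈ T, ∀ b ∈ T, a ≠ b →
        |∑ n ∈ range N, l (n + a) * l (n + b)| ≤ η * N := by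
      rw [eventually_all_finset]
      intro a ha
      rw [eventually_all_finset]
      intro b hb
      by_cases hab : a = b
      · exact Eventually.of_forall fun N h => absurd hab h
      · obtain ⟨N₀, hN₀⟩ := hE a b hab η hη
        filter_upwards [hU (eventually_ge_atTop N₀), hUE] with N hN hNE _
        exact hN₀ N hN hNE
    filter_upwards [h2, hU (eventually_ge_atTop 1)] with N hN hN1
    have h3 := bessel T η N hN1 hη.le hN (fun n => ∏ k ∈ A, l (n + k)) (fun n => (prod_abs A n).le)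
    refine le_trans (le_of_eq ?_) h3
    refine sum_congr rfl fun a ha => ?_
    unfold co
    congr 2
    refine sum_congr rfl fun n _ => ?_
    rw [prod_insert (hTA a ha), mul_comm]
  by_contra hcon
  push Not at hcon
  have h1 := key ((∑ a ∈ T, c (insert a A) ^ 2 - 1) / (2 * ((T.card : ℝ) ^ 2 + 1))) (by
    apply div_pos (by linarith) (by positivity))
  have h2 : (∑ a ∈ T, c (insert a A) ^ 2 - 1) / (2 * ((T.card : ℝ) ^ 2 + 1)) * (T.card : ℝ) ^ 2 ≤
      (∑ a ∈ T, c (insert a A) ^ 2 - 1) / 2 := by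
    rw [div_mul_eq_mul_div, div_le_div_iff₀ (by positivity) (by norm_num)]
    have h3 : 0 ≤ ∑ a ∈ T, c (insert a A) ^ 2 - 1 := by linarith
    nlinarith [sq_nonneg (T.card : ℝ)]
  linarith

/-- double counting -/
lemma double (H : Finset ℕ) (j : ℕ) (g : Finset ℕ → ℝ) :
    ((j : ℝ) + 1) * ∑ A ∈ H.powersetCard (j + 1), g A =
      ∑ A ∈ H.powersetCard j, ∑ a ∈ H \ A, g (insert a A) := by
  have e1 : ((j : ℝ) + 1) * ∑ A ∈ H.powersetCard (j + 1), g A =
      ∑ A ∈ H.powersetCard (j + 1), ∑ a ∈ A, g A := by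
    rw [mul_sum]
    refine sum_congr rfl fun A hA => ?_
    rw [sum_const, (mem_powersetCard.1 hA).2, nsmul_eq_mul]
    push_cast
    ring
  rw [e1, sum_sigma', sum_sigma']
  refine sum_bij' (fun x _ => ⟨x.1.erase x.2, x.2⟩) (fun x _ => ⟨insert x.2 x.1, x.2⟩) ?_ ?_ ?_ ?_ ?_
  · rintro ⟨A, a⟩ h
    rw [mem_sigma, mem_powersetCard] at h
    rw [mem_sigma, mem_powersetCard, Finset.mem_sdiff]
    simp only at h ⊢
    obtain ⟨⟨h1, h2⟩, h3⟩ := h
    refine ⟨⟨(erase_subset _ _).trans h1, ?_⟩, h1 h3, notMem_erase _ _⟩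
    rw [card_erase_of_mem h3, h2]
    rfl
  · rintro ⟨A, a⟩ h
    rw [mem_sigma, mem_powersetCard, Finset.mem_sdiff] at h
    rw [mem_sigma, mem_powersetCard]
    simp only at h ⊢
    obtain ⟨⟨h1, h2⟩, h3, h4⟩ := h
    refine ⟨⟨insert_subset h3 h1, ?_⟩, mem_insert_self _ _⟩
    rw [card_insert_of_notMem h4, h2]
  · rintro ⟨A, a⟩ h
    rw [mem_sigma] at h
    simp only at h ⊢
    rw [insert_erase h.2]
  · rintro ⟨A, a⟩ h
    rw [mem_sigma, Finset.mem_sdiff] at h
    simp only at h ⊢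
    rw [erase_insert h.2.2]
  · rintro ⟨A, a⟩ h
    rw [mem_sigma] at h
    simp only at h ⊢
    rw [insert_erase h.2]

/-- the level `j` -/
lemma level {U : Ultrafilter ℕ} (hU : (U : Filter ℕ) ≤ atTop) {E : Set ℕ} (hE : Two E)
    (hUE : ∀ᶠ N in (U : Filter ℕ), N ∉ E) {c : Finset ℕ → ℝ}
    (hc : ∀ A, Tendsto (fun N => co N A) (U : Filter ℕ) (𝓝 (c A))) (H : Finset ℕ) (j : ℕ) :
    ((j : ℝ) + 1) * ∑ A ∈ H.powersetCard (j + 1), c A ^ 2 ≤ (H.card.choose j : ℝ) := by
  rw [double H j fun A => c A ^ 2]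
  calc ∑ A ∈ H.powersetCard j, ∑ a ∈ H \ A, c (insert a A) ^ 2 ≤ ∑ A ∈ H.powersetCard j, (1 : ℝ) := by
        refine sum_le_sum fun A _ => ?_
        exact bessel_lim hU hE hUE hc _ _ fun a ha => (Finset.mem_sdiff.1 ha).2
    _ = (H.card.choose j : ℝ) := by
        rw [sum_const, card_powersetCard, nsmul_eq_mul, mul_one]

/-- the number of sets of `k` elements above `A` -/
lemma above (H A : Finset ℕ) (k : ℕ) (hA : A ⊆ H) (hk : A.card ≤ k) :
    ((H.powersetCard k).filter fun K => A ⊆ K).card = (H.card - A.card).choose (k - A.card) := by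
  rw [← card_sdiff_of_subset hA, ← card_powersetCard]
  refine card_bij' (fun K _ => K \ A) (fun K _ => K ∪ A) ?_ ?_ ?_ ?_
  · intro K hK
    rw [mem_filter, mem_powersetCard] at hK
    rw [mem_powersetCard]
    exact ⟨sdiff_subset_sdiff hK.1.1 subset_rfl, by rw [card_sdiff_of_subset hK.2, hK.1.2]⟩
  · intro K hK
    rw [mem_powersetCard] at hK
    rw [mem_filter, mem_powersetCard]
    have hd : Disjoint K A := disjoint_of_subset_left hK.1 sdiff_disjoint
    refine ⟨⟨union_subset (hK.1.trans sdiff_subset) hA, ?_⟩, subset_union_right⟩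
    rw [card_union_of_disjoint hd, hK.2]
    omega
  · intro K hK
    rw [mem_filter] at hK
    exact sdiff_union_of_subset hK.2
  · intro K hK
    rw [mem_powersetCard] at hK
    have hd : Disjoint K A := disjoint_of_subset_left hK.1 sdiff_disjoint
    rw [union_sdiff_right]
    exact sdiff_eq_self_of_disjoint hd

/-- the sum over all sets `K` of `k` places -/
lemma total {c : Finset ℕ → ℝ} (H : Finset ℕ) (k : ℕ) (hk : k ≤ H.card)
    (hlev : ∀ j : ℕ, ((j : ℝ) + 1) * ∑ A ∈ H.powersetCard (j + 1), c A ^ 2 ≤ (H.card.choose j : ℝ)) :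
    ((H.card : ℝ) - k + 1) * ∑ K ∈ H.powersetCard k, ∑ A ∈ K.powerset.erase ∅, c A ^ 2 ≤
      (H.card.choose k : ℝ) * (2 ^ k - 1) := by
  classical
  set n := H.card with hn
  -- rearrange
  have e1 : ∑ K ∈ H.powersetCard k, ∑ A ∈ K.powerset.erase ∅, c A ^ 2 =
      ∑ A ∈ H.powerset.erase ∅, (((H.powersetCard k).filter fun K => A ⊆ K).card : ℝ) * c A ^ 2 := by
    have e2 : ∀ A ∈ H.powerset.erase ∅, (((H.powersetCard k).filter fun K => A ⊆ K).card : ℝ) * c A ^ 2 =
        ∑ K ∈ H.powersetCard k, if A ⊆ K then c A ^ 2 else 0 := by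
      intro A _
      rw [← sum_filter, sum_const, nsmul_eq_mul]
    rw [sum_congr rfl e2, sum_comm]
    refine sum_congr rfl fun K hK => ?_
    rw [← sum_filter]
    congr 1
    ext A
    rw [mem_erase, mem_powerset, mem_filter, mem_erase, mem_powerset]
    constructor
    · rintro ⟨h1, h2⟩
      exact ⟨⟨h1, h2.trans (mem_powersetCard.1 hK).1⟩, h2⟩
    · rintro ⟨⟨h1, -⟩, h2⟩
      exact ⟨h1, h2⟩
  have e3 : ∑ A ∈ H.powerset.erase ∅, (((H.powersetCard k).filter fun K => A ⊆ K).card : ℝ) * c A ^ 2 ≤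
      ∑ j ∈ range k, ((n - (j + 1)).choose (k - (j + 1)) : ℝ) * ∑ A ∈ H.powersetCard (j + 1), c A ^ 2 := by
    have e4 : ∑ j ∈ range k, ((n - (j + 1)).choose (k - (j + 1)) : ℝ) *
        ∑ A ∈ H.powersetCard (j + 1), c A ^ 2 =
        ∑ j ∈ range k, ∑ A ∈ H.powersetCard (j + 1),
          (((H.powersetCard k).filter fun K => A ⊆ K).card : ℝ) * c A ^ 2 := by
      refine sum_congr rfl fun j hj => ?_
      rw [mul_sum]
      refine sum_congr rfl fun A hA => ?_
      rw [mem_powersetCard] at hA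
      rw [mem_range] at hj
      rw [above H A k hA.1 (by omega), hA.2]
    rw [e4]
    have e5 : ∀ A ∈ H.powerset.erase ∅, A ∉ (range k).biUnion (fun j => H.powersetCard (j + 1)) →
        (((H.powersetCard k).filter fun K => A ⊆ K).card : ℝ) * c A ^ 2 = 0 := by
      intro A hA hA2
      rw [mem_erase, mem_powerset] at hA
      have h1 : k < A.card := by
        by_contra hcon
        push Not at hcon
        apply hA2
        rw [mem_biUnion]
        have h2 : 0 < A.card := card_pos.2 (nonempty_iff_ne_empty.2 hA.1)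
        refine ⟨A.card - 1, by rw [mem_range]; omega, ?_⟩
        rw [mem_powersetCard]
        exact ⟨hA.2, by omega⟩
      have h2 : (H.powersetCard k).filter (fun K => A ⊆ K) = ∅ := by
        rw [filter_eq_empty_iff]
        intro K hK hAK
        have h3 := card_le_card hAK
        rw [(mem_powersetCard.1 hK).2] at h3
        omega
      rw [h2]
      simp
    have e6 : (range k).biUnion (fun j => H.powersetCard (j + 1)) ⊆ H.powerset.erase ∅ := by
      intro A hA
      rw [mem_biUnion] at hA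
      obtain ⟨j, -, hj⟩ := hA
      rw [mem_powersetCard] at hj
      rw [mem_erase, mem_powerset]
      refine ⟨?_, hj.1⟩
      rintro rfl
      simp at hj
    rw [← sum_subset e6 e5, sum_biUnion]
    intro i _ j _ hij
    rw [Function.onFun, disjoint_left]
    intro A h1 h2
    rw [mem_powersetCard] at h1 h2
    omega
  have e7 : ∀ j ∈ range k, ((n : ℝ) - k + 1) * (((n - (j + 1)).choose (k - (j + 1)) : ℝ) *
      ∑ A ∈ H.powersetCard (j + 1), c A ^ 2) ≤ (n.choose k : ℝ) * (k.choose (j + 1) : ℝ) := by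
    intro j hj
    rw [mem_range] at hj
    have h1 := hlev j
    have h2 : (n.choose k : ℝ) * (k.choose (j + 1) : ℝ) =
        (n.choose (j + 1) : ℝ) * ((n - (j + 1)).choose (k - (j + 1)) : ℝ) := by
      exact_mod_cast Nat.choose_mul (by omega : j + 1 ≤ k)
    have h3 : (n.choose (j + 1) : ℝ) * ((j : ℝ) + 1) = (n.choose j : ℝ) * ((n : ℝ) - j) := by
      have h4 := Nat.choose_succ_right_eq n j
      have h5 : ((n - j : ℕ) : ℝ) = (n : ℝ) - j := by
        rw [Nat.cast_sub (by omega)]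
      rw [← h5]
      exact_mod_cast h4
    rw [h2]
    have h6 : ((n : ℝ) - k + 1) * ∑ A ∈ H.powersetCard (j + 1), c A ^ 2 ≤ (n.choose (j + 1) : ℝ) := by
      have h7 : ((n : ℝ) - k + 1) ≤ (n : ℝ) - j := by
        have : (j : ℝ) + 1 ≤ k := by exact_mod_cast hj
        linarith
      have h8 : 0 ≤ ∑ A ∈ H.powersetCard (j + 1), c A ^ 2 := sum_nonneg fun _ _ => sq_nonneg _
      have hj1 : (0 : ℝ) < (j : ℝ) + 1 := by positivity
      have h9 : (0 : ℝ) ≤ (n : ℝ) - j := by
        have h10 : (k : ℝ) ≤ n := by exact_mod_cast hk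
        have : (j : ℝ) + 1 ≤ k := by exact_mod_cast hj
        linarith
      have h10 : ((j : ℝ) + 1) * (((n : ℝ) - k + 1) * ∑ A ∈ H.powersetCard (j + 1), c A ^ 2) ≤
          ((j : ℝ) + 1) * (n.choose (j + 1) : ℝ) := by
        calc ((j : ℝ) + 1) * (((n : ℝ) - k + 1) * ∑ A ∈ H.powersetCard (j + 1), c A ^ 2) ≤
            ((j : ℝ) + 1) * (((n : ℝ) - j) * ∑ A ∈ H.powersetCard (j + 1), c A ^ 2) := by
              apply mul_le_mul_of_nonneg_left _ hj1.le
              exact mul_le_mul_of_nonneg_right h7 h8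
          _ = ((n : ℝ) - j) * (((j : ℝ) + 1) * ∑ A ∈ H.powersetCard (j + 1), c A ^ 2) := by ring
          _ ≤ ((n : ℝ) - j) * (n.choose j : ℝ) := mul_le_mul_of_nonneg_left h1 h9
          _ = ((j : ℝ) + 1) * (n.choose (j + 1) : ℝ) := by rw [mul_comm, ← h3]; ring
      exact le_of_mul_le_mul_left h10 hj1
    calc ((n : ℝ) - k + 1) * (((n - (j + 1)).choose (k - (j + 1)) : ℝ) *
        ∑ A ∈ H.powersetCard (j + 1), c A ^ 2) =
        (((n : ℝ) - k + 1) * ∑ A ∈ H.powersetCard (j + 1), c A ^ 2) *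
          ((n - (j + 1)).choose (k - (j + 1)) : ℝ) := by ring
      _ ≤ (n.choose (j + 1) : ℝ) * ((n - (j + 1)).choose (k - (j + 1)) : ℝ) :=
          mul_le_mul_of_nonneg_right h6 (Nat.cast_nonneg _)
  have h0 : (0 : ℝ) ≤ (n : ℝ) - k + 1 := by
    have : (k : ℝ) ≤ n := by exact_mod_cast hk
    linarith
  rw [e1]
  calc ((n : ℝ) - k + 1) * ∑ A ∈ H.powerset.erase ∅,
        (((H.powersetCard k).filter fun K => A ⊆ K).card : ℝ) * c A ^ 2 ≤
      ((n : ℝ) - k + 1) * ∑ j ∈ range k, ((n - (j + 1)).choose (k - (j + 1)) : ℝ) *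
        ∑ A ∈ H.powersetCard (j + 1), c A ^ 2 := mul_le_mul_of_nonneg_left e3 h0
    _ ≤ ∑ j ∈ range k, (n.choose k : ℝ) * (k.choose (j + 1) : ℝ) := by
        rw [mul_sum]
        exact sum_le_sum e7
    _ = (n.choose k : ℝ) * (2 ^ k - 1) := by
        rw [← mul_sum]
        congr 1
        have h1 := Nat.sum_range_choose k
        rw [sum_range_succ'] at h1
        have h2 : ((∑ j ∈ range k, k.choose (j + 1) : ℕ) : ℝ) + 1 = 2 ^ k := by
          have : (∑ j ∈ range k, k.choose (j + 1)) + 1 = 2 ^ k := by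
            rw [← h1]; simp
          exact_mod_cast this
        push_cast at h2
        linarith

end Pool.Agent.K9h52.Avg
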