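import Pool.Agent.K9h52.Avg1

/-!
K9h52: the mean square of the frequencies of the sign patterns, final form.
-/

set_option autoImplicit false

namespace Pool.Agent.K9h52.Avg

open Finset Filter Topology
open Pool.Agent.R509.TT (l l_pm)
open Pool.Agent.K9h52.Ind

/-- character -/
def chi (P A : Finset ℕ) : ℝ := (-1) ^ (A ∩ P).card

lemma chi_comm (P A : Finset ℕ) : chi P A = chi A P := by
  unfold chi
  rw [inter_comm]

lemma prod_chi (P A : Finset ℕ) : ∏ h ∈ A, (if h ∈ P then (-1 : ℝ) else 1) = chi P A := by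
  rw [prod_ite, prod_const_one, prod_const, mul_one, filter_mem_eq_inter]
  rfl

lemma chi_empty (P : Finset ℕ) : chi P ∅ = 1 := by
  unfold chi
  simp

lemma orth (K A B : Finset ℕ) (hA : A ⊆ K) (hB : B ⊆ K) :
    ∑ P ∈ K.powerset, chi P A * chi P B = if A = B then 2 ^ K.card else 0 := by
  have e1 : ∀ P ∈ K.powerset, chi P A * chi P B =
      ∏ h ∈ P, ((if h ∈ A then (-1 : ℝ) else 1) * (if h ∈ B then (-1 : ℝ) else 1)) := by
    intro P _
    rw [prod_mul_distrib, prod_chi, prod_chi, chi_comm P A, chi_comm P B]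
  rw [sum_congr rfl e1, ← prod_one_add]
  split_ifs with h
  · subst h
    have e2 : ∀ x ∈ K, (1 + (if x ∈ A then (-1 : ℝ) else 1) * (if x ∈ A then (-1 : ℝ) else 1)) = 2 := by
      intro x _
      split_ifs <;> norm_num
    rw [prod_congr rfl e2, prod_const]
  · have h1 : ∃ x ∈ K, ¬ (x ∈ A ↔ x ∈ B) := by
      by_contra hcon
      push Not at hcon
      apply h
      ext x
      constructor
      · intro hx
        exact (hcon x (hA hx)).1 hx
      · intro hx
        exact (hcon x (hB hx)).2 hx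
    obtain ⟨x, hx, hx2⟩ := h1
    apply prod_eq_zero hx
    by_cases h3 : x ∈ A
    · by_cases h4 : x ∈ B
      · exact absurd (iff_of_true h3 h4) hx2
      · rw [if_pos h3, if_neg h4]; norm_num
    · by_cases h4 : x ∈ B
      · rw [if_neg h3, if_pos h4]; norm_num
      · exact absurd (iff_of_false h3 h4) hx2

lemma parseval (K : Finset ℕ) (x : Finset ℕ → ℝ) :
    ∑ P ∈ K.powerset, (∑ A ∈ K.powerset.erase ∅, chi P A * x A) ^ 2 =
      2 ^ K.card * ∑ A ∈ K.powerset.erase ∅, x A ^ 2 := by
  have e1 : ∀ P, (∑ A ∈ K.powerset.erase ∅, chi P A * x A) ^ 2 =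
      ∑ A ∈ K.powerset.erase ∅, ∑ B ∈ K.powerset.erase ∅, x A * x B * (chi P A * chi P B) := by
    intro P
    rw [sq, sum_mul_sum]
    refine sum_congr rfl fun A _ => sum_congr rfl fun B _ => ?_
    ring
  rw [sum_congr rfl fun P _ => e1 P, sum_comm]
  have e2 : ∀ A ∈ K.powerset.erase ∅, ∑ P ∈ K.powerset, ∑ B ∈ K.powerset.erase ∅,
      x A * x B * (chi P A * chi P B) = 2 ^ K.card * x A ^ 2 := by
    intro A hA
    rw [sum_comm]
    have e3 : ∀ B ∈ K.powerset.erase ∅, ∑ P ∈ K.powerset, x A * x B * (chi P A * chi P B) =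
        if A = B then x A * x B * 2 ^ K.card else 0 := by
      intro B hB
      rw [← mul_sum, orth K A B (mem_powerset.1 (mem_of_mem_erase hA))
        (mem_powerset.1 (mem_of_mem_erase hB))]
      split_ifs <;> simp
    rw [sum_congr rfl e3, sum_ite_eq, if_pos hA]
    ring
  rw [sum_congr rfl e2, ← mul_sum]

open Classical in
/-- the number of occurrences -/
noncomputable def cnt (N : ℕ) (K P : Finset ℕ) : ℝ :=
  (((range N).filter fun n => ∀ h ∈ K, (l (n + h) = -1 ↔ h ∈ P)).card : ℝ)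

lemma cnt_eq (N : ℕ) (K P : Finset ℕ) (hN : 1 ≤ N) :
    cnt N K P / N = (∑ A ∈ K.powerset, chi P A * co N A) / 2 ^ K.card := by
  classical
  have hN0 : (N : ℝ) ≠ 0 := by
    have : (0 : ℝ) < N := by exact_mod_cast hN
    exact this.ne'
  have e0 : ∀ n, (∀ h ∈ K, (l (n + h) = -1 ↔ h ∈ P)) ↔ ∀ h ∈ K, l (n + h) = if h ∈ P then -1 else 1 := by
    intro n
    refine forall₂_congr fun h _ => ?_
    by_cases hP : h ∈ P
    · rw [if_pos hP]
      exact iff_true_right hP
    · rw [if_neg hP]
      constructor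
      · intro h1
        rcases l_pm (n + h) with h2 | h2
        · exact h2
        · exact absurd (h1.1 h2) hP
      · intro h1
        constructor
        · intro h2
          rw [h1] at h2
          norm_num at h2
        · intro h2
          exact absurd h2 hP
  have e1 : cnt N K P = (∑ A ∈ K.powerset, chi P A * ∑ n ∈ range N, ∏ h ∈ A, l (n + h)) / 2 ^ K.card := by
    unfold cnt
    rw [filter_congr fun n _ => e0 n, card_filter]
    push_cast
    rw [sum_congr rfl fun n _ => ind_prod K (fun h => if h ∈ P then -1 else 1) (fun h _ => by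
      by_cases hP : h ∈ P
      · simp [hP]
      · simp [hP]) n]
    have e2 : ∀ n, ∏ h ∈ K, ((1 + (if h ∈ P then (-1 : ℝ) else 1) * l (n + h)) / 2) =
        (∑ A ∈ K.powerset, chi P A * ∏ h ∈ A, l (n + h)) / 2 ^ K.card := by
      intro n
      rw [prod_div_distrib, prod_const, prod_one_add]
      congr 1
      refine sum_congr rfl fun A _ => ?_
      rw [prod_mul_distrib, prod_chi]
    rw [sum_congr rfl fun n _ => e2 n, ← sum_div]
    congr 1
    rw [sum_comm]
    refine sum_congr rfl fun A _ => ?_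
    rw [mul_sum]
  rw [e1, div_div, mul_comm (2 ^ K.card : ℝ) (N : ℝ), ← div_div, sum_div]
  congr 1
  refine sum_congr rfl fun A _ => ?_
  unfold co
  rw [mul_div_assoc]

open Classical in
/-- **main theorem** -/
theorem main : ∃ (X : ℕ → ℕ) (d : Finset ℕ → Finset ℕ → ℝ), StrictMono X ∧
    (∀ K P : Finset ℕ, Tendsto (fun i => (((Icc 1 (X i)).filter fun m =>
      ∀ h ∈ K, (l (m + h) = -1 ↔ h ∈ P)).card : ℝ) / X i) atTop (𝓝 (d K P))) ∧
    ∀ (H : Finset ℕ) (k : ℕ), k ≤ H.card →
      ((H.card : ℝ) - k + 1) * ∑ K ∈ H.powersetCard k, ∑ P ∈ K.powerset, (2 ^ k * d K P - 1) ^ 2 ≤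
        (H.card.choose k : ℝ) * (2 ^ k * (2 ^ k - 1)) := by
  obtain ⟨E, hEZ, hE⟩ := exists_two
  obtain ⟨U, hU, hUE⟩ := exists_U hEZ
  obtain ⟨c, hc⟩ := exists_lim U
  obtain ⟨d, hd⟩ : ∃ d : Finset ℕ → Finset ℕ → ℝ, ∀ K P, d K P = (∑ A ∈ K.powerset, chi P A * c A) / 2 ^ K.card :=
    ⟨_, fun K P => rfl⟩
  have hlim : ∀ K P, Tendsto (fun N => cnt N K P / N) (U : Filter ℕ) (𝓝 (d K P)) := by
    intro K P
    rw [hd]
    have h1 : Tendsto (fun N => (∑ A ∈ K.powerset, chi P A * co N A) / 2 ^ K.card) (U : Filter ℕ)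
        (𝓝 ((∑ A ∈ K.powerset, chi P A * c A) / 2 ^ K.card)) :=
      (tendsto_finsetSum _ fun A _ => (hc A).const_mul _).div_const _
    refine Tendsto.congr' ?_ h1
    filter_upwards [hU (eventually_ge_atTop 1)] with N hN
    exact (cnt_eq N K P hN).symm
  have hex : ∀ i p : ℕ, ∃ N : ℕ, p < N ∧ ∀ K ∈ (range i).powerset, ∀ P ∈ (range i).powerset,
      |cnt N K P / N - d K P| < 1 / ((i : ℝ) + 1) := by
    intro i p
    have h1 : ∀ᶠ N in (U : Filter ℕ), ∀ K ∈ (range i).powerset, ∀ P ∈ (range i).powerset,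
        |cnt N K P / N - d K P| < 1 / ((i : ℝ) + 1) := by
      rw [eventually_all_finset]
      intro K _
      rw [eventually_all_finset]
      intro P _
      have h2 := (hlim K P).eventually (Metric.ball_mem_nhds (d K P) (by positivity :
        (0 : ℝ) < 1 / ((i : ℝ) + 1)))
      filter_upwards [h2] with N hN
      rw [← Real.dist_eq]
      exact hN
    obtain ⟨N, h2, h3⟩ := (h1.and (hU (eventually_gt_atTop p))).exists
    exact ⟨N, h3, h2⟩
  choose g hg1 hg2 using hex
  obtain ⟨X, hX0, hXs⟩ : ∃ X : ℕ → ℕ, X 0 = g 0 0 ∧ ∀ i, X (i + 1) = g (i + 1) (X i) :=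
    ⟨fun n => Nat.rec (g 0 0) (fun i p => g (i + 1) p) n, rfl, fun i => rfl⟩
  have hXm : StrictMono X := strictMono_nat_of_lt_succ fun i => by rw [hXs]; exact hg1 _ _
  have hXt : ∀ i, ∀ K ∈ (range i).powerset, ∀ P ∈ (range i).powerset,
      |cnt (X i) K P / X i - d K P| < 1 / ((i : ℝ) + 1) := by
    intro i
    cases i with
    | zero => rw [hX0]; exact hg2 _ _
    | succ i => rw [hXs]; exact hg2 _ _
  have hX1 : ∀ i, 1 ≤ X i := by
    intro i
    cases i with
    | zero =>
      rw [hX0]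
      exact hg1 0 0
    | succ i =>
      exact Nat.succ_le_of_lt (lt_of_le_of_lt (Nat.zero_le _) (hXm (Nat.succ_pos i)))
  refine ⟨X, d, hXm, fun K P => ?_, fun H k hk => ?_⟩
  · have h1 : Tendsto (fun i => cnt (X i) K P / X i) atTop (𝓝 (d K P)) := by
      rw [tendsto_iff_norm_sub_tendsto_zero]
      have h2 : Tendsto (fun i : ℕ => 1 / ((i : ℝ) + 1)) atTop (𝓝 0) := tendsto_one_div_add_atTop_nhds_zero_nat
      refine squeeze_zero' (Eventually.of_forall fun i => norm_nonneg _) ?_ h2
      obtain ⟨i₀, hi₀⟩ : ∃ i₀ : ℕ, K ⊆ range i₀ ∧ P ⊆ range i₀ := by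
        refine ⟨(K ∪ P).sup id + 1, fun x hx => ?_, fun x hx => ?_⟩
        · have := le_sup (f := id) (mem_union_left P hx)
          rw [mem_range]
          simp only [id] at this
          omega
        · have := le_sup (f := id) (mem_union_right K hx)
          rw [mem_range]
          simp only [id] at this
          omega
      filter_upwards [eventually_ge_atTop i₀] with i hi
      rw [Real.norm_eq_abs]
      exact (hXt i K (mem_powerset.2 (hi₀.1.trans (range_subset_range.2 hi))) P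
        (mem_powerset.2 (hi₀.2.trans (range_subset_range.2 hi)))).le
    have h3 : Tendsto (fun i => (((Icc 1 (X i)).filter fun m =>
        ∀ h ∈ K, (l (m + h) = -1 ↔ h ∈ P)).card : ℝ) / X i - cnt (X i) K P / X i) atTop (𝓝 0) := by
      have h4 : Tendsto (fun i => (1 : ℝ) / (X i : ℝ)) atTop (𝓝 0) := by
        have h5 : Tendsto (fun i => (X i : ℝ)) atTop atTop :=
          tendsto_natCast_atTop_atTop.comp hXm.tendsto_atTop
        exact tendsto_const_nhds.div_atTop h5
      rw [tendsto_zero_iff_abs_tendsto_zero]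
      refine squeeze_zero (fun i => abs_nonneg _) (fun i => ?_) h4
      simp only [Function.comp]
      have hX0 : (0 : ℝ) < X i := by exact_mod_cast hX1 i
      rw [← sub_div, abs_div, abs_of_pos hX0]
      apply div_le_div_of_nonneg_right _ hX0.le
      unfold cnt
      have a1 : (Icc 1 (X i)).filter (fun m => ∀ h ∈ K, (l (m + h) = -1 ↔ h ∈ P)) ⊆
          insert (X i) ((range (X i)).filter (fun n => ∀ h ∈ K, (l (n + h) = -1 ↔ h ∈ P))) := by
        intro m hm
        rw [mem_filter, mem_Icc] at hm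
        rw [mem_insert, mem_filter, mem_range]
        rcases hm.1.2.lt_or_eq with h | h
        · exact Or.inr ⟨h, hm.2⟩
        · exact Or.inl h
      have a2 : (range (X i)).filter (fun n => ∀ h ∈ K, (l (n + h) = -1 ↔ h ∈ P)) ⊆
          insert 0 ((Icc 1 (X i)).filter (fun m => ∀ h ∈ K, (l (m + h) = -1 ↔ h ∈ P))) := by
        intro m hm
        rw [mem_filter, mem_range] at hm
        rw [mem_insert, mem_filter, mem_Icc]
        rcases Nat.eq_zero_or_pos m with h | h
        · exact Or.inl h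
        · exact Or.inr ⟨⟨h, hm.1.le⟩, hm.2⟩
      have b1 := (card_le_card a1).trans (card_insert_le _ _)
      have b2 := (card_le_card a2).trans (card_insert_le _ _)
      rw [abs_le]
      constructor
      · have : (((range (X i)).filter (fun n => ∀ h ∈ K, (l (n + h) = -1 ↔ h ∈ P))).card : ℝ) ≤
            ((Icc 1 (X i)).filter (fun m => ∀ h ∈ K, (l (m + h) = -1 ↔ h ∈ P))).card + 1 := by exact_mod_cast b2
        linarith
      · have : (((Icc 1 (X i)).filter (fun m => ∀ h ∈ K, (l (m + h) = -1 ↔ h ∈ P))).card : ℝ) ≤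
            ((range (X i)).filter (fun n => ∀ h ∈ K, (l (n + h) = -1 ↔ h ∈ P))).card + 1 := by exact_mod_cast b1
        linarith
    have h5 := h3.add h1
    simp only [sub_add_cancel, zero_add] at h5
    exact h5
  · have e1 : ∀ K ∈ H.powersetCard k, ∑ P ∈ K.powerset, (2 ^ k * d K P - 1) ^ 2 =
        2 ^ k * ∑ A ∈ K.powerset.erase ∅, c A ^ 2 := by
      intro K hK
      have hKc : K.card = k := (mem_powersetCard.1 hK).2
      rw [← hKc, ← parseval K c]
      refine sum_congr rfl fun P _ => ?_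
      congr 1
      rw [hd, mul_div_cancel₀ _ (by positivity : (2 : ℝ) ^ K.card ≠ 0),
        ← add_sum_erase _ _ (empty_mem_powerset K), chi_empty, lim_empty hU hc]
      ring
    rw [sum_congr rfl e1, ← mul_sum]
    have h1 := total (c := c) H k hk (fun j => level hU hE hUE hc H j)
    calc ((H.card : ℝ) - k + 1) * (2 ^ k * ∑ K ∈ H.powersetCard k, ∑ A ∈ K.powerset.erase ∅, c A ^ 2) =
        2 ^ k * (((H.card : ℝ) - k + 1) * ∑ K ∈ H.powersetCard k, ∑ A ∈ K.powerset.erase ∅, c A ^ 2) := by ring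
      _ ≤ 2 ^ k * ((H.card.choose k : ℝ) * (2 ^ k - 1)) := mul_le_mul_of_nonneg_left h1 (by positivity)
      _ = (H.card.choose k : ℝ) * (2 ^ k * (2 ^ k - 1)) := by ring

end Pool.Agent.K9h52.Avg
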