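import Mathlib
import Pool.Agent.R509.TT.Two

/-!
K9h52: sign patterns of the Liouville function on sparse sets of shifts. Bessel's inequality for the
shifts of the Liouville function.
-/

set_option autoImplicit false

namespace Pool.Agent.K9h52.Ind

open Finset Filter Topology
open Pool.Agent.R509.TT (l l_pm exc)
open Pool.Agent.Y958.U (LZ)

lemma l_abs (n : ℕ) : |l n| = 1 := by
  rcases l_pm n with h | h <;> rw [h] <;> norm_num

lemma l_sq (n : ℕ) : l n * l n = 1 := by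
  rcases l_pm n with h | h <;> rw [h] <;> norm_num

/-- shifting a sum -/
lemma sum_shift (g : ℕ → ℝ) (hg : ∀ n, |g n| ≤ 1) (h N : ℕ) :
    |∑ n ∈ range N, g (n + h) - ∑ n ∈ range N, g n| ≤ 2 * h := by
  induction h with
  | zero => simp
  | succ h ih =>
    have e : ∑ n ∈ range N, g (n + (h + 1)) = ∑ n ∈ range N, g (n + h) + g (N + h) - g h := by
      have e1 : ∑ n ∈ range (N + 1), g (n + h) = ∑ n ∈ range N, g (n + 1 + h) + g (0 + h) :=
        sum_range_succ' _ _
      have e2 : ∑ n ∈ range (N + 1), g (n + h) = ∑ n ∈ range N, g (n + h) + g (N + h) :=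
        sum_range_succ _ _
      have e3 : ∑ n ∈ range N, g (n + 1 + h) = ∑ n ∈ range N, g (n + (h + 1)) :=
        sum_congr rfl fun n _ => by rw [show n + 1 + h = n + (h + 1) by ring]
      rw [e3] at e1
      rw [zero_add] at e1
      linarith
    rw [e]
    have h1 := hg (N + h)
    have h2 := hg h
    have h3 : ∑ n ∈ range N, g (n + h) + g (N + h) - g h - ∑ n ∈ range N, g n =
        (∑ n ∈ range N, g (n + h) - ∑ n ∈ range N, g n) + (g (N + h) - g h) := by ring
    rw [h3]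
    calc |(∑ n ∈ range N, g (n + h) - ∑ n ∈ range N, g n) + (g (N + h) - g h)| ≤
        |∑ n ∈ range N, g (n + h) - ∑ n ∈ range N, g n| + |g (N + h) - g h| := abs_add_le _ _
      _ ≤ 2 * h + (|g (N + h)| + |g h|) := add_le_add ih (abs_sub _ _)
      _ ≤ 2 * ((h + 1 : ℕ) : ℝ) := by push_cast; linarith

/-- the two point property of the complement of `E` -/
def Two (E : Set ℕ) : Prop := ∀ h h' : ℕ, h ≠ h' → ∀ δ : ℝ, 0 < δ → ∃ N₀ : ℕ, ∀ N : ℕ, N₀ ≤ N → N ∉ E →
  |∑ n ∈ range N, l (n + h) * l (n + h')| ≤ δ * N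

lemma two_lt {E : Set ℕ} (hE : ∀ h : ℕ, 1 ≤ h → ∀ δ : ℝ, 0 < δ →
    ∃ N₀ : ℕ, ∀ N : ℕ, N₀ ≤ N → N ∉ E → |∑ n ∈ range N, l n * l (n + h)| ≤ δ * N)
    (h h' : ℕ) (hh : h < h') (δ : ℝ) (hδ : 0 < δ) : ∃ N₀ : ℕ, ∀ N : ℕ, N₀ ≤ N → N ∉ E →
      |∑ n ∈ range N, l (n + h) * l (n + h')| ≤ δ * N := by
  obtain ⟨N₀, hN₀⟩ := hE (h' - h) (by omega) (δ / 2) (by positivity)
  obtain ⟨N₁, hN₁⟩ := exists_nat_ge (4 * (h : ℝ) / δ)
  refine ⟨max N₀ N₁, fun N hN hNE => ?_⟩
  have h1 := hN₀ N (le_trans (le_max_left _ _) hN) hNE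
  have h2 := sum_shift (fun n => l n * l (n + (h' - h))) (fun n => by
    rw [abs_mul, l_abs, l_abs]; norm_num) h N
  have h3 : ∑ n ∈ range N, l (n + h) * l (n + h + (h' - h)) = ∑ n ∈ range N, l (n + h) * l (n + h') :=
    sum_congr rfl fun n _ => by rw [show n + h + (h' - h) = n + h' by omega]
  rw [h3] at h2
  have h4 : (N₁ : ℝ) ≤ N := by exact_mod_cast le_trans (le_max_right _ _) hN
  have h5 : 2 * (h : ℝ) ≤ δ / 2 * N := by
    have h6 : 4 * (h : ℝ) / δ ≤ N := hN₁.trans h4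
    rw [div_le_iff₀ hδ] at h6
    linarith
  calc |∑ n ∈ range N, l (n + h) * l (n + h')| =
      |(∑ n ∈ range N, l (n + h) * l (n + h') - ∑ n ∈ range N, l n * l (n + (h' - h))) +
        ∑ n ∈ range N, l n * l (n + (h' - h))| := by rw [sub_add_cancel]
    _ ≤ |∑ n ∈ range N, l (n + h) * l (n + h') - ∑ n ∈ range N, l n * l (n + (h' - h))| +
        |∑ n ∈ range N, l n * l (n + (h' - h))| := abs_add_le _ _
    _ ≤ 2 * h + δ / 2 * N := add_le_add h2 h1
    _ ≤ δ * N := by linarith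

theorem exists_two : ∃ E : Set ℕ, LZ E ∧ Two E := by
  obtain ⟨E, hE, h⟩ := exc
  refine ⟨E, hE, fun a b hab δ hδ => ?_⟩
  rcases lt_or_gt_of_ne hab with hlt | hlt
  · exact two_lt h a b hlt δ hδ
  · obtain ⟨N₀, hN₀⟩ := two_lt h b a hlt δ hδ
    refine ⟨N₀, fun N hN hNE => ?_⟩
    have := hN₀ N hN hNE
    have e : ∑ n ∈ range N, l (n + a) * l (n + b) = ∑ n ∈ range N, l (n + b) * l (n + a) :=
      sum_congr rfl fun n _ => mul_comm _ _
    rw [e]
    exact this

/-- Bessel's inequality at one scale -/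
lemma bessel (T : Finset ℕ) (η : ℝ) (N : ℕ) (hN : 1 ≤ N) (hη : 0 ≤ η)
    (h : ∀ a ∈ T, ∀ b ∈ T, a ≠ b → |∑ n ∈ range N, l (n + a) * l (n + b)| ≤ η * N)
    (f : ℕ → ℝ) (hf : ∀ n, |f n| ≤ 1) :
    ∑ a ∈ T, ((∑ n ∈ range N, f n * l (n + a)) / N) ^ 2 ≤ 1 + η * (T.card : ℝ) ^ 2 := by
  have hN0 : (0 : ℝ) < N := by exact_mod_cast hN
  obtain ⟨x, hx⟩ : ∃ x : ℕ → ℝ, x = fun a => (∑ n ∈ range N, f n * l (n + a)) / N := ⟨_, rfl⟩
  have hx1 : ∀ a, |x a| ≤ 1 := by
    intro a
    rw [hx]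
    simp only
    rw [abs_div, abs_of_pos hN0, div_le_one hN0]
    refine (abs_sum_le_sum_abs _ _).trans ?_
    calc ∑ n ∈ range N, |f n * l (n + a)| ≤ ∑ n ∈ range N, (1 : ℝ) := by
          refine sum_le_sum fun n _ => ?_
          rw [abs_mul, l_abs, mul_one]
          exact hf n
      _ = N := by simp
  have hxs : ∀ a, ∑ n ∈ range N, f n * l (n + a) = x a * N := by
    intro a
    rw [hx]
    simp only
    rw [div_mul_cancel₀ _ hN0.ne']
  -- the square
  have h0 : 0 ≤ ∑ n ∈ range N, (f n - ∑ a ∈ T, x a * l (n + a)) ^ 2 := sum_nonneg fun n _ => sq_nonneg _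
  have e1 : ∑ n ∈ range N, (f n - ∑ a ∈ T, x a * l (n + a)) ^ 2 =
      ∑ n ∈ range N, f n ^ 2 - 2 * ∑ a ∈ T, x a * ∑ n ∈ range N, f n * l (n + a) +
        ∑ a ∈ T, ∑ b ∈ T, x a * x b * ∑ n ∈ range N, l (n + a) * l (n + b) := by
    have e2 : ∀ n, (f n - ∑ a ∈ T, x a * l (n + a)) ^ 2 = f n ^ 2 - 2 * ∑ a ∈ T, x a * (f n * l (n + a)) +
        ∑ a ∈ T, ∑ b ∈ T, x a * x b * (l (n + a) * l (n + b)) := by
      intro n
      have e3 : ∑ a ∈ T, ∑ b ∈ T, x a * x b * (l (n + a) * l (n + b)) =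
          (∑ a ∈ T, x a * l (n + a)) * (∑ a ∈ T, x a * l (n + a)) := by
        rw [sum_mul_sum]
        refine sum_congr rfl fun a _ => sum_congr rfl fun b _ => ?_
        ring
      have e4 : ∑ a ∈ T, x a * (f n * l (n + a)) = f n * ∑ a ∈ T, x a * l (n + a) := by
        rw [mul_sum]
        refine sum_congr rfl fun a _ => ?_
        ring
      rw [e3, e4]
      ring
    rw [sum_congr rfl fun n _ => e2 n, sum_add_distrib, sum_sub_distrib, ← mul_sum]
    congr 1
    · congr 2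
      rw [sum_comm]
      refine sum_congr rfl fun a _ => ?_
      rw [mul_sum]
    · rw [sum_comm]
      refine sum_congr rfl fun a _ => ?_
      rw [sum_comm]
      refine sum_congr rfl fun b _ => ?_
      rw [mul_sum]
  rw [e1] at h0
  have e5 : ∑ n ∈ range N, f n ^ 2 ≤ N := by
    calc ∑ n ∈ range N, f n ^ 2 ≤ ∑ n ∈ range N, (1 : ℝ) := by
          refine sum_le_sum fun n _ => ?_
          rw [← sq_abs]
          exact pow_le_one₀ (abs_nonneg _) (hf n)
      _ = N := by simp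
  have e6 : ∑ a ∈ T, x a * ∑ n ∈ range N, f n * l (n + a) = (∑ a ∈ T, x a ^ 2) * N := by
    rw [sum_mul]
    refine sum_congr rfl fun a _ => ?_
    rw [hxs a]
    ring
  have e7 : ∑ a ∈ T, ∑ b ∈ T, x a * x b * ∑ n ∈ range N, l (n + a) * l (n + b) ≤
      (∑ a ∈ T, x a ^ 2) * N + η * (T.card : ℝ) ^ 2 * N := by
    have e8 : ∀ a ∈ T, ∀ b ∈ T, x a * x b * ∑ n ∈ range N, l (n + a) * l (n + b) ≤
        (if a = b then x a ^ 2 * N else 0) + η * N := by
      intro a ha b hb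
      by_cases hab : a = b
      · subst hab
        rw [if_pos rfl]
        have : ∑ n ∈ range N, l (n + a) * l (n + a) = N := by
          rw [sum_congr rfl fun n _ => l_sq (n + a)]
          simp
        rw [this]
        have : 0 ≤ η * N := by positivity
        nlinarith
      · rw [if_neg hab, zero_add]
        refine (le_abs_self _).trans ?_
        rw [abs_mul, abs_mul]
        have h1 := h a ha b hb hab
        have h2 : |x a| * |x b| ≤ 1 := by
          have := mul_le_mul (hx1 a) (hx1 b) (abs_nonneg _) zero_le_one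
          simpa using this
        calc |x a| * |x b| * |∑ n ∈ range N, l (n + a) * l (n + b)| ≤
            1 * (η * N) := mul_le_mul h2 h1 (abs_nonneg _) zero_le_one
          _ = η * N := one_mul _
    refine (sum_le_sum fun a ha => sum_le_sum fun b hb => e8 a ha b hb).trans ?_
    have e9 : ∑ a ∈ T, ∑ b ∈ T, ((if a = b then x a ^ 2 * (N : ℝ) else 0) + η * N) =
        (∑ a ∈ T, x a ^ 2) * N + η * (T.card : ℝ) ^ 2 * N := by
      simp only [sum_add_distrib, sum_const, nsmul_eq_mul]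
      rw [sum_mul]
      congr 1
      · refine sum_congr rfl fun a ha => ?_
        rw [sum_ite_eq T a, if_pos ha]
      · ring
    exact le_of_eq e9
  rw [e6] at h0
  have e10 : (∑ a ∈ T, x a ^ 2) * N ≤ (1 + η * (T.card : ℝ) ^ 2) * N := by nlinarith
  have e11 := le_of_mul_le_mul_right e10 hN0
  rw [hx] at e11
  exact e11

end Pool.Agent.K9h52.Ind
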