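import Pool.Agent.K9h52.Ind1

/-!
K9h52: infinite sets of shifts with all the sign patterns of the Liouville function.
-/

set_option autoImplicit false

namespace Pool.Agent.K9h52.Ind

open Finset Filter Topology
open Pool.Agent.R509.TT (l l_pm)

/-- normalised absolute value of the correlation -/
noncomputable def cc (N : ℕ) (A : Finset ℕ) : ℝ := |∑ n ∈ range N, ∏ h ∈ A, l (n + h)| / N

lemma cc_nonneg (N : ℕ) (A : Finset ℕ) : 0 ≤ cc N A := by unfold cc; positivity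

/-- the correlations which contain `h` and elements of `S` -/
noncomputable def ex (N : ℕ) (S : Finset ℕ) (h : ℕ) : ℝ := ∑ A ∈ S.powerset, cc N (insert h A)

/-- all correlations -/
noncomputable def tot (N : ℕ) (S : Finset ℕ) : ℝ := ∑ A ∈ S.powerset, cc N A

/-- good extension -/
def Good (U : Ultrafilter ℕ) (δ : ℝ) (S : Finset ℕ) (h : ℕ) : Prop :=
  ∀ᶠ N in (U : Filter ℕ), ex N S h ≤ δ

lemma prod_abs (A : Finset ℕ) (n : ℕ) : |∏ h ∈ A, l (n + h)| = 1 := by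
  rw [abs_prod]
  exact prod_eq_one fun h _ => l_abs _

lemma bad_card {U : Ultrafilter ℕ} (hU : (U : Filter ℕ) ≤ atTop) {E : Set ℕ} (hE : Two E)
    (hUE : ∀ᶠ N in (U : Filter ℕ), N ∉ E) (δ : ℝ) (hδ : 0 < δ) (S T : Finset ℕ)
    (hST : ∀ h ∈ T, h ∉ S) (hT : ∀ h ∈ T, ¬ Good U δ S h) :
    (T.card : ℝ) ≤ 2 * 4 ^ S.card / δ ^ 2 := by
  set η : ℝ := 1 / ((T.card : ℝ) ^ 2 + 1) with hη
  have hη0 : 0 < η := by positivity
  have h1 : ∀ᶠ N in (U : Filter ℕ), ∀ h ∈ T, δ < ex N S h := by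
    rw [eventually_all_finset]
    intro h hh
    have h2 := hT h hh
    unfold Good at h2
    have h3 := (Ultrafilter.eventually_not (f := U) (p := fun N => ex N S h ≤ δ)).2 h2
    filter_upwards [h3] with N hN
    exact not_le.1 hN
  have h2 : ∀ᶠ N in (U : Filter ℕ), ∀ a ∈ T, ∀ b ∈ T, a ≠ b →
      |∑ n ∈ range N, l (n + a) * l (n + b)| ≤ η * N := by
    rw [eventually_all_finset]
    intro a ha
    rw [eventually_all_finset]
    intro b hb
    by_cases hab : a = b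
    · exact Eventually.of_forall fun N h => absurd hab h
    · obtain ⟨N₀, hN₀⟩ := hE a b hab η hη0
      filter_upwards [hU (eventually_ge_atTop N₀), hUE] with N hN hNE _
      exact hN₀ N hN hNE
  have h3 : ∀ᶠ N in (U : Filter ℕ), 1 ≤ N := hU (eventually_ge_atTop 1)
  obtain ⟨N, hN1, hN2, hN3⟩ := (h1.and (h2.and h3)).exists
  have hb : ∀ A ∈ S.powerset, ∑ h ∈ T, cc N (insert h A) ^ 2 ≤ 2 := by
    intro A hA
    rw [mem_powerset] at hA
    have h4 := bessel T η N hN3 hη0.le hN2 (fun n => ∏ k ∈ A, l (n + k)) (fun n => (prod_abs A n).le)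
    have h5 : ∑ h ∈ T, cc N (insert h A) ^ 2 =
        ∑ h ∈ T, ((∑ n ∈ range N, (∏ k ∈ A, l (n + k)) * l (n + h)) / N) ^ 2 := by
      refine sum_congr rfl fun h hh => ?_
      have hhA : h ∉ A := fun hx => hST h hh (hA hx)
      have e1 : ∑ n ∈ range N, ∏ k ∈ insert h A, l (n + k) = ∑ n ∈ range N, (∏ k ∈ A, l (n + k)) * l (n + h) :=
        sum_congr rfl fun n _ => by rw [prod_insert hhA, mul_comm]
      unfold cc
      rw [← sq_abs ((∑ n ∈ range N, (∏ k ∈ A, l (n + k)) * l (n + h)) / N), abs_div,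
        abs_of_nonneg (Nat.cast_nonneg N : (0 : ℝ) ≤ N), e1]
    rw [h5]
    refine h4.trans ?_
    have h6 : η * (T.card : ℝ) ^ 2 ≤ 1 := by
      rw [hη, one_div, inv_mul_le_iff₀ (by positivity)]
      linarith
    linarith
  have hc : ∀ h ∈ T, δ ^ 2 ≤ 2 ^ S.card * ∑ A ∈ S.powerset, cc N (insert h A) ^ 2 := by
    intro h hh
    have h4 := hN1 h hh
    have h5 : ex N S h ^ 2 ≤ 2 ^ S.card * ∑ A ∈ S.powerset, cc N (insert h A) ^ 2 := by
      unfold ex
      have := sq_sum_le_card_mul_sum_sq (s := S.powerset) (f := fun A => cc N (insert h A))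
      rw [card_powerset] at this
      push_cast at this
      exact this
    refine le_trans ?_ h5
    exact pow_le_pow_left₀ hδ.le h4.le 2
  have hs : (T.card : ℝ) * δ ^ 2 ≤ 2 * 4 ^ S.card := by
    calc (T.card : ℝ) * δ ^ 2 = ∑ h ∈ T, δ ^ 2 := by rw [sum_const, nsmul_eq_mul]
      _ ≤ ∑ h ∈ T, 2 ^ S.card * ∑ A ∈ S.powerset, cc N (insert h A) ^ 2 := sum_le_sum hc
      _ = 2 ^ S.card * ∑ A ∈ S.powerset, ∑ h ∈ T, cc N (insert h A) ^ 2 := by
          rw [← mul_sum, sum_comm]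
      _ ≤ 2 ^ S.card * ∑ A ∈ S.powerset, 2 := by
          apply mul_le_mul_of_nonneg_left (sum_le_sum hb) (by positivity)
      _ = 2 * 4 ^ S.card := by
          rw [sum_const, card_powerset, nsmul_eq_mul]
          push_cast
          rw [show (4 : ℝ) = 2 * 2 by norm_num, mul_pow]
          ring
  rw [le_div_iff₀ (by positivity)]
  exact hs

/-- one step of the construction -/
lemma step {U : Ultrafilter ℕ} (hU : (U : Filter ℕ) ≤ atTop) {E : Set ℕ} (hE : Two E)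
    (hUE : ∀ᶠ N in (U : Filter ℕ), N ∉ E) (δ : ℝ) (hδ : 0 < δ) (H : Set ℕ) (hH : H.Infinite)
    (S : Finset ℕ) : ∃ h : ℕ, h ∈ H ∧ (∀ x ∈ S, x < h) ∧ Good U δ S h ∧
      ((H ∩ Set.Iio h).ncard : ℝ) ≤ ((H ∩ {x | ∃ y ∈ S, x ≤ y}).ncard : ℝ) + 2 * 4 ^ S.card / δ ^ 2 := by
  classical
  set B : Set ℕ := {h | h ∈ H ∧ (∀ x ∈ S, x < h) ∧ ¬ Good U δ S h} with hB
  have hBc : ∀ T : Finset ℕ, (T : Set ℕ) ⊆ B → (T.card : ℝ) ≤ 2 * 4 ^ S.card / δ ^ 2 := by
    intro T hT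
    refine bad_card hU hE hUE δ hδ S T (fun h hh hx => ?_) (fun h hh => (hT hh).2.2)
    exact lt_irrefl _ ((hT hh).2.1 h hx)
  have hBf : B.Finite := by
    by_contra hinf
    have hinf : B.Infinite := hinf
    obtain ⟨m, hm⟩ := exists_nat_gt (2 * (4 : ℝ) ^ S.card / δ ^ 2)
    obtain ⟨T, hT1, hT2⟩ := hinf.exists_subset_card_eq m
    have := hBc T hT1
    rw [hT2] at this
    linarith
  have hBn : (B.ncard : ℝ) ≤ 2 * 4 ^ S.card / δ ^ 2 := by
    have h1 := hBc hBf.toFinset (by simp)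
    rw [Set.ncard_eq_toFinset_card B hBf]
    exact h1
  have hLf : (H ∩ {x | ∃ y ∈ S, x ≤ y}).Finite := by
    refine Set.Finite.subset (Set.finite_Iic (S.sup id)) ?_
    rintro x ⟨-, y, hy, hxy⟩
    exact hxy.trans (le_sup (f := id) hy)
  -- there are good elements
  have hG : ∃ h : ℕ, h ∈ H ∧ (∀ x ∈ S, x < h) ∧ Good U δ S h := by
    by_contra hcon
    push Not at hcon
    apply hH
    refine Set.Finite.subset (hLf.union hBf) ?_
    intro h hh
    by_cases h1 : ∃ y ∈ S, h ≤ y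
    · exact Or.inl ⟨hh, h1⟩
    · push Not at h1
      exact Or.inr ⟨hh, h1, hcon h hh h1⟩
  refine ⟨Nat.find hG, (Nat.find_spec hG).1, (Nat.find_spec hG).2.1, (Nat.find_spec hG).2.2, ?_⟩
  have hsub : H ∩ Set.Iio (Nat.find hG) ⊆ (H ∩ {x | ∃ y ∈ S, x ≤ y}) ∪ B := by
    rintro x ⟨hx, hx2⟩
    by_cases h1 : ∃ y ∈ S, x ≤ y
    · exact Or.inl ⟨hx, h1⟩
    · push Not at h1
      refine Or.inr ⟨hx, h1, fun h2 => ?_⟩
      exact Nat.find_min hG hx2 ⟨hx, h1, h2⟩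
  have h1 : (H ∩ Set.Iio (Nat.find hG)).ncard ≤ ((H ∩ {x | ∃ y ∈ S, x ≤ y}) ∪ B).ncard :=
    Set.ncard_le_ncard hsub (hLf.union hBf)
  have h2 := Set.ncard_union_le (H ∩ {x | ∃ y ∈ S, x ≤ y}) B
  have h3 : ((H ∩ Set.Iio (Nat.find hG)).ncard : ℝ) ≤
      ((H ∩ {x | ∃ y ∈ S, x ≤ y}).ncard : ℝ) + B.ncard := by exact_mod_cast h1.trans h2
  linarith

/-- the construction -/
theorem construct {U : Ultrafilter ℕ} (hU : (U : Filter ℕ) ≤ atTop) {E : Set ℕ} (hE : Two E)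
    (hUE : ∀ᶠ N in (U : Filter ℕ), N ∉ E) (δ : ℝ) (hδ : 0 < δ) (H : Set ℕ) (hH : H.Infinite) :
    ∃ s : ℕ → ℕ, StrictMono s ∧ (∀ k, s k ∈ H) ∧
      (∀ k, ((H ∩ Set.Iio (s k)).ncard : ℝ) ≤ (2 + 4 / δ ^ 2) * ((k : ℝ) + 2) ^ 4 * 4 ^ k) ∧
      ∀ K : ℕ, ∀ᶠ N in (U : Filter ℕ), tot N ((range K).image s) ≤ 1 + δ := by
  classical
  -- the tolerances
  have hex : ∀ S : Finset ℕ, ∃ h : ℕ, h ∈ H ∧ (∀ x ∈ S, x < h) ∧
      Good U (δ / (((S.card : ℝ) + 1) * ((S.card : ℝ) + 2))) S h ∧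
      ((H ∩ Set.Iio h).ncard : ℝ) ≤ ((H ∩ {x | ∃ y ∈ S, x ≤ y}).ncard : ℝ) +
        2 * 4 ^ S.card / (δ / (((S.card : ℝ) + 1) * ((S.card : ℝ) + 2))) ^ 2 := fun S =>
    step hU hE hUE _ (by positivity) H hH S
  choose g hg1 hg2 hg3 hg4 using hex
  obtain ⟨Q, hQ0, hQs⟩ : ∃ Q : ℕ → Finset ℕ, Q 0 = ∅ ∧ ∀ k, Q (k + 1) = insert (g (Q k)) (Q k) :=
    ⟨fun n => Nat.rec ∅ (fun _ S => insert (g S) S) n, rfl, fun k => rfl⟩
  obtain ⟨s, hs⟩ : ∃ s : ℕ → ℕ, ∀ k, s k = g (Q k) := ⟨fun k => g (Q k), fun k => rfl⟩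
  have hgn : ∀ S : Finset ℕ, g S ∉ S := fun S h => lt_irrefl _ (hg2 S _ h)
  have hQc : ∀ k, (Q k).card = k := by
    intro k
    induction k with
    | zero => rw [hQ0]; rfl
    | succ k ih => rw [hQs, card_insert_of_notMem (hgn _), ih]
  have hQi : ∀ k, Q k = (range k).image s := by
    intro k
    induction k with
    | zero => rw [hQ0]; simp
    | succ k ih =>
      rw [hQs, range_add_one, image_insert, ← ih, hs]
  have hmono : StrictMono s := by
    refine strictMono_nat_of_lt_succ fun k => ?_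
    rw [hs (k + 1)]
    apply hg2
    rw [hQs, hs]
    exact mem_insert_self _ _
  have hb : ∀ k : ℕ, 2 * (4 : ℝ) ^ (Q k).card / (δ / ((((Q k).card : ℝ) + 1) * (((Q k).card : ℝ) + 2))) ^ 2 ≤
      2 / δ ^ 2 * ((k : ℝ) + 2) ^ 4 * 4 ^ k := by
    intro k
    rw [hQc, div_pow, div_div_eq_mul_div, div_le_iff₀ (by positivity)]
    have e1 : 2 / δ ^ 2 * ((k : ℝ) + 2) ^ 4 * 4 ^ k * δ ^ 2 = 2 * 4 ^ k * ((k : ℝ) + 2) ^ 4 := by
      field_simp
    rw [e1]
    apply mul_le_mul_of_nonneg_left _ (by positivity)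
    have e2 : (((k : ℝ) + 1) * ((k : ℝ) + 2)) ^ 2 = ((k : ℝ) + 1) ^ 2 * ((k : ℝ) + 2) ^ 2 := by ring
    have e3 : ((k : ℝ) + 2) ^ 4 = ((k : ℝ) + 2) ^ 2 * ((k : ℝ) + 2) ^ 2 := by ring
    rw [e2, e3]
    apply mul_le_mul_of_nonneg_right _ (by positivity)
    apply pow_le_pow_left₀ (by positivity)
    linarith
  refine ⟨s, hmono, fun k => by rw [hs]; exact hg1 _, fun k => ?_, fun K => ?_⟩
  · induction k with
    | zero =>
      rw [hs]
      have h1 := hg4 (Q 0)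
      have h2 := hb 0
      have h3 : (H ∩ {x | ∃ y ∈ Q 0, x ≤ y}) = ∅ := by
        rw [hQ0]
        ext x
        simp
      rw [h3, Set.ncard_empty] at h1
      have h4 : 2 / δ ^ 2 * (((0 : ℕ) : ℝ) + 2) ^ 4 * 4 ^ 0 ≤
          (2 + 4 / δ ^ 2) * (((0 : ℕ) : ℝ) + 2) ^ 4 * 4 ^ 0 := by
        apply mul_le_mul_of_nonneg_right _ (by positivity)
        apply mul_le_mul_of_nonneg_right _ (by positivity)
        have : 0 < 2 / δ ^ 2 := by positivity
        have e : 4 / δ ^ 2 = 2 * (2 / δ ^ 2) := by ring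
        rw [e]
        linarith
      push_cast at *
      linarith
    | succ k ih =>
      have h1 := hg4 (Q (k + 1))
      rw [← hs] at h1
      have h2 := hb (k + 1)
      have h3 : (H ∩ {x | ∃ y ∈ Q (k + 1), x ≤ y}) ⊆ insert (s k) (H ∩ Set.Iio (s k)) := by
        rintro x ⟨hx, y, hy, hxy⟩
        rw [hQi, mem_image] at hy
        obtain ⟨j, hj, rfl⟩ := hy
        rw [mem_range] at hj
        have h4 : x ≤ s k := hxy.trans (hmono.monotone (by omega))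
        rcases h4.lt_or_eq with h5 | h5
        · exact Or.inr ⟨hx, h5⟩
        · exact Or.inl h5
      have hfin : (H ∩ Set.Iio (s k)).Finite := (Set.finite_Iio _).subset Set.inter_subset_right
      have h4 : (H ∩ {x | ∃ y ∈ Q (k + 1), x ≤ y}).ncard ≤ (H ∩ Set.Iio (s k)).ncard + 1 :=
        (Set.ncard_le_ncard h3 (hfin.insert _)).trans (Set.ncard_insert_le _ _)
      have h5 : ((H ∩ {x | ∃ y ∈ Q (k + 1), x ≤ y}).ncard : ℝ) ≤ ((H ∩ Set.Iio (s k)).ncard : ℝ) + 1 := by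
        exact_mod_cast h4
      have h6 : (2 + 4 / δ ^ 2) * ((k : ℝ) + 2) ^ 4 * 4 ^ k ≤
          (1 / 4 * (2 + 4 / δ ^ 2)) * (((k + 1 : ℕ) : ℝ) + 2) ^ 4 * 4 ^ (k + 1) := by
        rw [pow_succ (4 : ℝ) k]
        have e1 : (1 / 4 * (2 + 4 / δ ^ 2)) * (((k + 1 : ℕ) : ℝ) + 2) ^ 4 * (4 ^ k * 4) =
            (2 + 4 / δ ^ 2) * (((k + 1 : ℕ) : ℝ) + 2) ^ 4 * 4 ^ k := by ring
        rw [e1]
        apply mul_le_mul_of_nonneg_right _ (by positivity)
        apply mul_le_mul_of_nonneg_left _ (by positivity)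
        apply pow_le_pow_left₀ (by positivity)
        push_cast
        linarith
      have h7 : (1 : ℝ) ≤ 1 * (((k + 1 : ℕ) : ℝ) + 2) ^ 4 * 4 ^ (k + 1) := by
        rw [one_mul]
        have a1 : (1 : ℝ) ≤ (((k + 1 : ℕ) : ℝ) + 2) ^ 4 := one_le_pow₀ (by
          have : (0 : ℝ) ≤ ((k + 1 : ℕ) : ℝ) := Nat.cast_nonneg _
          linarith)
        have a2 : (1 : ℝ) ≤ 4 ^ (k + 1) := one_le_pow₀ (by norm_num)
        nlinarith
      have h8 : (1 / 4 * (2 + 4 / δ ^ 2)) * (((k + 1 : ℕ) : ℝ) + 2) ^ 4 * 4 ^ (k + 1) +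
          1 * (((k + 1 : ℕ) : ℝ) + 2) ^ 4 * 4 ^ (k + 1) +
          2 / δ ^ 2 * (((k + 1 : ℕ) : ℝ) + 2) ^ 4 * 4 ^ (k + 1) ≤
          (2 + 4 / δ ^ 2) * (((k + 1 : ℕ) : ℝ) + 2) ^ 4 * 4 ^ (k + 1) := by
        rw [← add_mul, ← add_mul, ← add_mul, ← add_mul]
        apply mul_le_mul_of_nonneg_right _ (by positivity)
        apply mul_le_mul_of_nonneg_right _ (by positivity)
        have e2 : 4 / δ ^ 2 = 4 * (1 / δ ^ 2) := by ring
        have e3 : 2 / δ ^ 2 = 2 * (1 / δ ^ 2) := by ring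
        have e4 : 0 < 1 / δ ^ 2 := by positivity
        rw [e2, e3]
        linarith
      linarith
  · rw [← hQi]
    -- telescoping
    have key : ∀ K : ℕ, ∀ᶠ N in (U : Filter ℕ), tot N (Q K) ≤ 1 + δ * (1 - 1 / ((K : ℝ) + 1)) := by
      intro K
      induction K with
      | zero =>
        filter_upwards [hU (eventually_ge_atTop 1)] with N hN
        rw [hQ0]
        unfold tot cc
        have hN0 : (0 : ℝ) < N := by exact_mod_cast hN
        simp [hN0.ne']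
      | succ K ih =>
        have h1 := hg3 (Q K)
        unfold Good at h1
        filter_upwards [ih, h1] with N hN1 hN2
        rw [hQs]
        unfold tot at hN1 ⊢
        rw [sum_powerset_insert (hgn _)]
        unfold ex at hN2
        rw [hQc] at hN2
        have e1 : δ / (((K : ℝ) + 1) * ((K : ℝ) + 2)) = δ * (1 / ((K : ℝ) + 1)) - δ * (1 / ((K : ℝ) + 2)) := by
          field_simp
          ring
        rw [e1] at hN2
        push_cast
        have e2 : (K : ℝ) + 1 + 1 = (K : ℝ) + 2 := by ring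
        rw [e2]
        linarith
    filter_upwards [key K] with N hN
    refine hN.trans ?_
    have : 0 ≤ δ * (1 / ((K : ℝ) + 1)) := by positivity
    linarith

end Pool.Agent.K9h52.Ind
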