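import Pool.Agent.K9h52.Ind2

/-!
K9h52: counting the occurrences of the patterns; assembly.
-/

set_option autoImplicit false

namespace Pool.Agent.K9h52.Ind

open Finset Filter Topology
open Pool.Agent.R509.TT (l l_pm)
open Pool.Agent.Y958.U (LZ LZ_iff LZ_union LZ_bdd ls ls_eq li li_mem)

lemma ind_prod (F : Finset ℕ) (ε : ℕ → ℝ) (hε : ∀ h ∈ F, ε h = 1 ∨ ε h = -1) (n : ℕ) :
    (if ∀ h ∈ F, l (n + h) = ε h then (1 : ℝ) else 0) = ∏ h ∈ F, ((1 + ε h * l (n + h)) / 2) := by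
  by_cases h : ∀ h ∈ F, l (n + h) = ε h
  · rw [if_pos h]
    symm
    refine prod_eq_one fun x hx => ?_
    rw [h x hx]
    rcases hε x hx with h1 | h1 <;> rw [h1] <;> norm_num
  · rw [if_neg h]
    push Not at h
    obtain ⟨x, hx, hne⟩ := h
    symm
    refine prod_eq_zero hx ?_
    rcases hε x hx with h1 | h1 <;> rcases l_pm (n + x) with h2 | h2
    · exact absurd (h2.trans h1.symm) hne
    · rw [h1, h2]; norm_num
    · rw [h1, h2]; norm_num
    · exact absurd (h2.trans h1.symm) hne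

open Classical in
lemma count (F : Finset ℕ) (ε : ℕ → ℝ) (hε : ∀ h ∈ F, ε h = 1 ∨ ε h = -1) (N : ℕ) (hN : 1 ≤ N) :
    |(((range N).filter fun n => ∀ h ∈ F, l (n + h) = ε h).card : ℝ) - N / 2 ^ F.card| ≤
      (tot N F - 1) * (N / 2 ^ F.card) := by
  have hN0 : (0 : ℝ) < N := by exact_mod_cast hN
  have e1 : (((range N).filter fun n => ∀ h ∈ F, l (n + h) = ε h).card : ℝ) =
      (∑ A ∈ F.powerset, (∏ h ∈ A, ε h) * ∑ n ∈ range N, ∏ h ∈ A, l (n + h)) / 2 ^ F.card := by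
    rw [card_filter]
    push_cast
    rw [sum_congr rfl fun n _ => ind_prod F ε hε n]
    have e2 : ∀ n, ∏ h ∈ F, ((1 + ε h * l (n + h)) / 2) =
        (∑ A ∈ F.powerset, (∏ h ∈ A, ε h) * ∏ h ∈ A, l (n + h)) / 2 ^ F.card := by
      intro n
      rw [prod_div_distrib, prod_const, prod_one_add]
      congr 1
      refine sum_congr rfl fun A _ => ?_
      rw [prod_mul_distrib]
    rw [sum_congr rfl fun n _ => e2 n, ← sum_div]
    congr 1
    rw [sum_comm]
    refine sum_congr rfl fun A _ => ?_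
    rw [mul_sum]
  have e3 : ∑ A ∈ F.powerset, (∏ h ∈ A, ε h) * ∑ n ∈ range N, ∏ h ∈ A, l (n + h) =
      N + ∑ A ∈ F.powerset.erase ∅, (∏ h ∈ A, ε h) * ∑ n ∈ range N, ∏ h ∈ A, l (n + h) := by
    rw [← add_sum_erase _ _ (empty_mem_powerset F)]
    simp
  have e4 : tot N F = 1 + ∑ A ∈ F.powerset.erase ∅, cc N A := by
    unfold tot
    rw [← add_sum_erase _ _ (empty_mem_powerset F)]
    congr 1
    unfold cc
    simp [hN0.ne']
  rw [e1, e3, e4, ← sub_div, add_sub_cancel_left, add_sub_cancel_left, abs_div,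
    abs_of_pos (by positivity : (0 : ℝ) < 2 ^ F.card), mul_div_assoc']
  apply div_le_div_of_nonneg_right _ (by positivity)
  refine (abs_sum_le_sum_abs _ _).trans ?_
  rw [sum_mul]
  refine sum_le_sum fun A hA => ?_
  rw [mem_erase, mem_powerset] at hA
  rw [abs_mul, abs_prod]
  have h1 : ∏ h ∈ A, |ε h| = 1 := by
    refine prod_eq_one fun h hh => ?_
    rcases hε h (hA.2 hh) with h1 | h1 <;> rw [h1] <;> norm_num
  rw [h1, one_mul]
  unfold cc
  rw [div_mul_cancel₀ _ hN0.ne']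

/-- there is an ultrafilter of scales -/
lemma exists_U {E : Set ℕ} (hE : LZ E) : ∃ U : Ultrafilter ℕ, (U : Filter ℕ) ≤ atTop ∧
    ∀ᶠ N in (U : Filter ℕ), N ∉ E := by
  have hne : (atTop ⊓ 𝓟 Eᶜ : Filter ℕ).NeBot := by
    rw [← frequently_mem_iff_neBot, frequently_atTop]
    by_contra hcon
    push Not at hcon
    obtain ⟨K, hK⟩ := hcon
    have h1 : LZ (E ∪ {n | n < K}) := LZ_union hE (LZ_bdd _ K fun n hn => hn)
    obtain ⟨X₀, hX₀⟩ := (LZ_iff _).1 h1 (1 / 2) (by norm_num)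
    have h2 := hX₀ (max X₀ 2) (le_max_left _ _)
    have h3 : ls (E ∪ {n | n < K}) (max X₀ 2) = (harmonic (max X₀ 2) : ℝ) := by
      rw [ls_eq, harmonic_eq_sum_Icc]
      push_cast
      refine sum_congr rfl fun n hn => ?_
      rw [li_mem, one_div]
      by_cases h : K ≤ n
      · left
        have := hK n h
        simpa using this
      · right
        exact not_le.1 h
    rw [h3] at h2
    have h4 := log_add_one_le_harmonic (max X₀ 2)
    have h5 : (2 : ℝ) ≤ ((max X₀ 2 : ℕ) : ℝ) := by exact_mod_cast le_max_right X₀ 2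
    have h6 : Real.log ((max X₀ 2 : ℕ) : ℝ) ≤ Real.log (((max X₀ 2 : ℕ) : ℝ) + 1) :=
      Real.log_le_log (by linarith) (by linarith)
    have h7 : 0 < Real.log ((max X₀ 2 : ℕ) : ℝ) := Real.log_pos (by linarith)
    push_cast at h2 h4 h5 h6 h7
    linarith
  refine ⟨@Ultrafilter.of ℕ _ hne, (Ultrafilter.of_le _).trans inf_le_left, ?_⟩
  have h1 : (@Ultrafilter.of ℕ _ hne : Filter ℕ) ≤ 𝓟 Eᶜ := (Ultrafilter.of_le _).trans inf_le_right
  exact h1 (mem_principal_self _)

lemma tot_mono (N : ℕ) {F G : Finset ℕ} (h : F ⊆ G) : tot N F ≤ tot N G := by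
  unfold tot
  exact sum_le_sum_of_subset_of_nonneg (powerset_mono.2 h) fun _ _ _ => cc_nonneg _ _

open Classical in
/-- **main theorem** -/
theorem main (δ : ℝ) (hδ : 0 < δ) : ∃ C : ℝ, ∀ H : Set ℕ, H.Infinite → ∃ s X : ℕ → ℕ,
    StrictMono s ∧ StrictMono X ∧
    (∀ k, s k ∈ H ∧ ((H ∩ Set.Iio (s k)).ncard : ℝ) ≤ C * ((k : ℝ) + 1) ^ 4 * 4 ^ k) ∧
    ∀ F : Finset ℕ, ∃ i₀ : ℕ, ∀ i, i₀ ≤ i → ∀ ε : ℕ → ℝ, (∀ k ∈ F, ε k = 1 ∨ ε k = -1) →
      |((((Icc 1 (X i)).filter fun m => ∀ k ∈ F, l (m + s k) = ε k).card : ℝ)) - X i / 2 ^ F.card| ≤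
        δ * (X i / 2 ^ F.card) := by
  obtain ⟨E, hEZ, hE⟩ := exists_two
  obtain ⟨U, hU, hUE⟩ := exists_U hEZ
  refine ⟨16 * (2 + 4 / (δ / 2) ^ 2), fun H hH => ?_⟩
  obtain ⟨s, hs, hsH, hsc, hst⟩ := construct hU hE hUE (δ / 2) (by positivity) H hH
  -- the scales
  have hX : ∀ i p : ℕ, ∃ N : ℕ, p < N ∧ tot N ((range i).image s) ≤ 1 + δ / 2 := by
    intro i p
    obtain ⟨N, h1, h2⟩ := ((hst i).and (hU (eventually_gt_atTop p))).exists
    exact ⟨N, h2, h1⟩
  choose g hg1 hg2 using hX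
  obtain ⟨X, hX0, hXs⟩ : ∃ X : ℕ → ℕ, X 0 = g 0 0 ∧ ∀ i, X (i + 1) = g (i + 1) (X i) :=
    ⟨fun n => Nat.rec (g 0 0) (fun i p => g (i + 1) p) n, rfl, fun i => rfl⟩
  have hXm : StrictMono X := strictMono_nat_of_lt_succ fun i => by rw [hXs]; exact hg1 _ _
  have hXt : ∀ i, tot (X i) ((range i).image s) ≤ 1 + δ / 2 := by
    intro i
    cases i with
    | zero => rw [hX0]; exact hg2 _ _
    | succ i => rw [hXs]; exact hg2 _ _
  refine ⟨s, X, hs, hXm, fun k => ⟨hsH k, ?_⟩, fun F => ?_⟩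
  · refine (hsc k).trans ?_
    have h1 : ((k : ℝ) + 2) ^ 4 ≤ 16 * ((k : ℝ) + 1) ^ 4 := by
      have h2 : (16 : ℝ) * ((k : ℝ) + 1) ^ 4 = (2 * ((k : ℝ) + 1)) ^ 4 := by ring
      rw [h2]
      apply pow_le_pow_left₀ (by positivity)
      have : (0 : ℝ) ≤ k := Nat.cast_nonneg _
      linarith
    calc (2 + 4 / (δ / 2) ^ 2) * ((k : ℝ) + 2) ^ 4 * 4 ^ k ≤
        (2 + 4 / (δ / 2) ^ 2) * (16 * ((k : ℝ) + 1) ^ 4) * 4 ^ k := by
          apply mul_le_mul_of_nonneg_right _ (by positivity)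
          exact mul_le_mul_of_nonneg_left h1 (by positivity)
      _ = 16 * (2 + 4 / (δ / 2) ^ 2) * ((k : ℝ) + 1) ^ 4 * 4 ^ k := by ring
  · obtain ⟨i₁, hi₁⟩ := exists_nat_ge (2 * 2 ^ F.card / δ)
    refine ⟨max (F.sup id + 1) (i₁ + 1), fun i hi ε hε => ?_⟩
    have hFi : F ⊆ range i := by
      intro k hk
      rw [mem_range]
      have h1 : k ≤ F.sup id := le_sup (f := id) hk
      have h2 := le_trans (le_max_left _ _) hi
      omega
    have hiX : i ≤ X i := hXm.id_le i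
    have hi1 : i₁ + 1 ≤ i := le_trans (le_max_right _ _) hi
    have hX1 : 1 ≤ X i := by omega
    have hXi1 : (i₁ : ℝ) ≤ X i := by exact_mod_cast (by omega : i₁ ≤ X i)
    -- transfer
    obtain ⟨e, he⟩ : ∃ e : ℕ → ℝ, ∀ k ∈ F, e (s k) = ε k := by
      refine ⟨fun h => if hh : ∃ k ∈ F, s k = h then ε hh.choose else 0, fun k hk => ?_⟩
      have hh : ∃ k' ∈ F, s k' = s k := ⟨k, hk, rfl⟩
      simp only [dif_pos hh]
      have h1 := hh.choose_spec.2
      rw [hs.injective h1]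
    have hc := count (F.image s) e (by
      intro h hh
      rw [mem_image] at hh
      obtain ⟨k, hk, rfl⟩ := hh
      rw [he k hk]
      exact hε k hk) (X i) hX1
    rw [card_image_of_injective F hs.injective] at hc
    have h1 : tot (X i) (F.image s) ≤ 1 + δ / 2 := (tot_mono _ (image_subset_image hFi)).trans (hXt i)
    have hpos : (0 : ℝ) ≤ X i / 2 ^ F.card := by positivity
    have h2 : (tot (X i) (F.image s) - 1) * ((X i : ℝ) / 2 ^ F.card) ≤ δ / 2 * (X i / 2 ^ F.card) :=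
      mul_le_mul_of_nonneg_right (by linarith) hpos
    have h3 : ∀ n, (∀ h ∈ F.image s, l (n + h) = e h) ↔ ∀ k ∈ F, l (n + s k) = ε k := by
      intro n
      constructor
      · intro h k hk
        rw [h (s k) (mem_image_of_mem _ hk), he k hk]
      · intro h x hx
        rw [mem_image] at hx
        obtain ⟨k, hk, rfl⟩ := hx
        rw [h k hk, he k hk]
    have h4 : (range (X i)).filter (fun n => ∀ h ∈ F.image s, l (n + h) = e h) =
        (range (X i)).filter (fun n => ∀ k ∈ F, l (n + s k) = ε k) :=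
      filter_congr fun n _ => h3 n
    rw [h4] at hc
    -- from range to Icc
    have h5 : |((((Icc 1 (X i)).filter fun m => ∀ k ∈ F, l (m + s k) = ε k).card : ℝ)) -
        ((range (X i)).filter (fun n => ∀ k ∈ F, l (n + s k) = ε k)).card| ≤ 1 := by
      have a1 : (Icc 1 (X i)).filter (fun m => ∀ k ∈ F, l (m + s k) = ε k) ⊆
          insert (X i) ((range (X i)).filter (fun n => ∀ k ∈ F, l (n + s k) = ε k)) := by
        intro m hm
        rw [mem_filter, mem_Icc] at hm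
        rw [mem_insert, mem_filter, mem_range]
        rcases hm.1.2.lt_or_eq with h | h
        · exact Or.inr ⟨h, hm.2⟩
        · exact Or.inl h
      have a2 : (range (X i)).filter (fun n => ∀ k ∈ F, l (n + s k) = ε k) ⊆
          insert 0 ((Icc 1 (X i)).filter (fun m => ∀ k ∈ F, l (m + s k) = ε k)) := by
        intro m hm
        rw [mem_filter, mem_range] at hm
        rw [mem_insert, mem_filter, mem_Icc]
        rcases Nat.eq_zero_or_pos m with h | h
        · exact Or.inl h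
        · exact Or.inr ⟨⟨h, hm.1.le⟩, hm.2⟩
      have b1 := (card_le_card a1).trans (card_insert_le _ _)
      have b2 := (card_le_card a2).trans (card_insert_le _ _)
      rw [abs_le]
      constructor
      · have : (((range (X i)).filter (fun n => ∀ k ∈ F, l (n + s k) = ε k)).card : ℝ) ≤
            ((Icc 1 (X i)).filter (fun m => ∀ k ∈ F, l (m + s k) = ε k)).card + 1 := by exact_mod_cast b2
        linarith
      · have : (((Icc 1 (X i)).filter (fun m => ∀ k ∈ F, l (m + s k) = ε k)).card : ℝ) ≤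
            ((range (X i)).filter (fun n => ∀ k ∈ F, l (n + s k) = ε k)).card + 1 := by exact_mod_cast b1
        linarith
    have h6 : (1 : ℝ) ≤ δ / 2 * (X i / 2 ^ F.card) := by
      have h7 : 2 * (2 : ℝ) ^ F.card / δ ≤ X i := hi₁.trans hXi1
      rw [div_le_iff₀ hδ] at h7
      rw [mul_div_assoc', le_div_iff₀ (by positivity)]
      linarith
    have h8 := abs_sub_le (((((Icc 1 (X i)).filter fun m => ∀ k ∈ F, l (m + s k) = ε k).card : ℝ)))
      (((range (X i)).filter (fun n => ∀ k ∈ F, l (n + s k) = ε k)).card : ℝ) (X i / 2 ^ F.card)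
    linarith

end Pool.Agent.K9h52.Ind
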