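import Pool.Agent.K9h52.Ind3
import Pool.Agent.Y958.U.Lam

/-!
K9h52: the construction started from a given finite set of places; three given places.
-/

set_option autoImplicit false

namespace Pool.Agent.K9h52.Ind

open Finset Filter Topology
open Pool.Agent.R509.TT (l l_pm)
open Pool.Agent.Y958.U (LZ LZ_iff LZ_union LZ_bdd lam_final FF)

/-- one step of the construction -/
lemma step' {U : Ultrafilter ℕ} (hU : (U : Filter ℕ) ≤ atTop) {E : Set ℕ} (hE : Two E)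
    (hUE : ∀ᶠ N in (U : Filter ℕ), N ∉ E) (δ : ℝ) (hδ : 0 < δ) (H : Set ℕ) (hH : H.Infinite)
    (S : Finset ℕ) (y : ℕ) : ∃ h : ℕ, h ∈ H ∧ y ≤ h ∧ h ∉ S ∧ Good U δ S h ∧
      ((H ∩ Set.Iio h).ncard : ℝ) ≤ ((H ∩ Set.Iio y).ncard : ℝ) + S.card + 2 * 4 ^ S.card / δ ^ 2 := by
  classical
  set B : Set ℕ := {h | h ∈ H ∧ h ∉ S ∧ ¬ Good U δ S h} with hB
  have hBc : ∀ T : Finset ℕ, (T : Set ℕ) ⊆ B → (T.card : ℝ) ≤ 2 * 4 ^ S.card / δ ^ 2 := by
    intro T hT
    exact bad_card hU hE hUE δ hδ S T (fun h hh => (hT hh).2.1) (fun h hh => (hT hh).2.2)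
  have hBf : B.Finite := by
    by_contra hinf
    have hinf : B.Infinite := hinf
    obtain ⟨m, hm⟩ := exists_nat_gt (2 * (4 : ℝ) ^ S.card / δ ^ 2)
    obtain ⟨T, hT1, hT2⟩ := hinf.exists_subset_card_eq m
    have := hBc T hT1
    rw [hT2] at this
    linarith
  have hBn : (B.ncard : ℝ) ≤ 2 * 4 ^ S.card / δ ^ 2 := by
    have h1 := hBc hBf.toFinset (by simp)
    rw [Set.ncard_eq_toFinset_card B hBf]
    exact h1
  -- there are good elements
  have hG : ∃ h : ℕ, h ∈ H ∧ y ≤ h ∧ h ∉ S ∧ Good U δ S h := by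
    by_contra hcon
    push Not at hcon
    apply hH
    refine Set.Finite.subset (((Set.finite_Iio y).union S.finite_toSet).union hBf) ?_
    intro h hh
    by_cases h1 : y ≤ h
    · by_cases h2 : h ∈ S
      · exact Or.inl (Or.inr h2)
      · exact Or.inr ⟨hh, h2, hcon h hh h1 h2⟩
    · exact Or.inl (Or.inl (not_le.1 h1))
  refine ⟨Nat.find hG, (Nat.find_spec hG).1, (Nat.find_spec hG).2.1, (Nat.find_spec hG).2.2.1,
    (Nat.find_spec hG).2.2.2, ?_⟩
  have hsub : H ∩ Set.Iio (Nat.find hG) ⊆ ((H ∩ Set.Iio y) ∪ (S : Set ℕ)) ∪ B := by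
    rintro x ⟨hx, hx2⟩
    by_cases h1 : y ≤ x
    · by_cases h2 : x ∈ S
      · exact Or.inl (Or.inr h2)
      · refine Or.inr ⟨hx, h2, fun h3 => ?_⟩
        exact Nat.find_min hG hx2 ⟨hx, h1, h2, h3⟩
    · exact Or.inl (Or.inl ⟨hx, not_le.1 h1⟩)
  have hf1 : (H ∩ Set.Iio y).Finite := (Set.finite_Iio y).subset Set.inter_subset_right
  have h1 : (H ∩ Set.Iio (Nat.find hG)).ncard ≤ (((H ∩ Set.Iio y) ∪ (S : Set ℕ)) ∪ B).ncard :=
    Set.ncard_le_ncard hsub ((hf1.union S.finite_toSet).union hBf)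
  have h2 := Set.ncard_union_le ((H ∩ Set.Iio y) ∪ (S : Set ℕ)) B
  have h3 := Set.ncard_union_le (H ∩ Set.Iio y) (S : Set ℕ)
  rw [Set.ncard_coe_finset] at h3
  have h4 : ((H ∩ Set.Iio (Nat.find hG)).ncard : ℝ) ≤
      ((H ∩ Set.Iio y).ncard : ℝ) + S.card + B.ncard := by
    have : (H ∩ Set.Iio (Nat.find hG)).ncard ≤ (H ∩ Set.Iio y).ncard + S.card + B.ncard := by omega
    exact_mod_cast this
  linarith

/-- the construction, started from the set `B` of at most three places -/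
theorem construct' {U : Ultrafilter ℕ} (hU : (U : Filter ℕ) ≤ atTop) {E : Set ℕ} (hE : Two E)
    (hUE : ∀ᶠ N in (U : Filter ℕ), N ∉ E) (δ : ℝ) (hδ : 0 < δ) (B : Finset ℕ) (hB : B.card ≤ 3)
    (H : Set ℕ) (hH : H.Infinite) :
    ∃ s : ℕ → ℕ, StrictMono s ∧ (∀ k, s k ∈ H ∧ s k ∉ B) ∧
      (∀ k, ((H ∩ Set.Iio (s k)).ncard : ℝ) ≤ 2 * (80000 / δ ^ 2 + 5) * ((k : ℝ) + 1) ^ 4 * 4 ^ k) ∧
      ∀ K : ℕ, ∀ᶠ N in (U : Filter ℕ), tot N (B ∪ (range K).image s) ≤ tot N B + δ := by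
  classical
  -- the tolerances
  have hex : ∀ p : Finset ℕ × ℕ, ∃ h : ℕ, h ∈ H ∧ p.2 ≤ h ∧ h ∉ p.1 ∧
      Good U (δ / (((p.1.card : ℝ) + 1) * ((p.1.card : ℝ) + 2))) p.1 h ∧
      ((H ∩ Set.Iio h).ncard : ℝ) ≤ ((H ∩ Set.Iio p.2).ncard : ℝ) + p.1.card +
        2 * 4 ^ p.1.card / (δ / (((p.1.card : ℝ) + 1) * ((p.1.card : ℝ) + 2))) ^ 2 := fun p =>
    step' hU hE hUE _ (by positivity) H hH p.1 p.2
  choose g hg1 hg2 hg3 hg4 hg5 using hex
  obtain ⟨P, hP0, hPs⟩ : ∃ P : ℕ → Finset ℕ × ℕ, P 0 = (B, 0) ∧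
      ∀ k, P (k + 1) = (insert (g (P k)) (P k).1, g (P k) + 1) :=
    ⟨fun n => Nat.rec (B, 0) (fun _ p => (insert (g p) p.1, g p + 1)) n, rfl, fun k => rfl⟩
  obtain ⟨s, hs⟩ : ∃ s : ℕ → ℕ, ∀ k, s k = g (P k) := ⟨fun k => g (P k), fun k => rfl⟩
  have hPc : ∀ k, (P k).1.card = B.card + k := by
    intro k
    induction k with
    | zero => rw [hP0]; rfl
    | succ k ih =>
      rw [hPs]
      simp only
      rw [card_insert_of_notMem (hg3 _), ih]
      ring
  have hPi : ∀ k, (P k).1 = B ∪ (range k).image s := by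
    intro k
    induction k with
    | zero => rw [hP0]; simp
    | succ k ih =>
      rw [hPs]
      simp only
      rw [range_add_one, image_insert, union_insert, ← ih, hs]
  have hmono : StrictMono s := by
    refine strictMono_nat_of_lt_succ fun k => ?_
    have h1 := hg2 (P (k + 1))
    rw [← hs (k + 1), hPs] at h1
    simp only at h1
    rw [← hs k] at h1
    omega
  have hsB : ∀ k, s k ∉ B := by
    intro k hk
    have h1 := hg3 (P k)
    rw [← hs, hPi] at h1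
    exact h1 (mem_union_left _ hk)
  have hbcast : (B.card : ℝ) ≤ 3 := by exact_mod_cast hB
  have hb : ∀ k : ℕ, ((P k).1.card : ℝ) + 1 + 2 * (4 : ℝ) ^ (P k).1.card /
      (δ / ((((P k).1.card : ℝ) + 1) * (((P k).1.card : ℝ) + 2))) ^ 2 ≤
      (80000 / δ ^ 2 + 5) * ((k : ℝ) + 1) ^ 4 * 4 ^ k := by
    intro k
    have hk0 : (0 : ℝ) ≤ k := Nat.cast_nonneg _
    have hp1 : (1 : ℝ) ≤ ((k : ℝ) + 1) ^ 4 := one_le_pow₀ (by linarith)
    have hp2 : (1 : ℝ) ≤ 4 ^ k := one_le_pow₀ (by norm_num)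
    rw [hPc, div_pow, div_div_eq_mul_div]
    have e1 : (80000 / δ ^ 2 + 5) * ((k : ℝ) + 1) ^ 4 * 4 ^ k =
        80000 * ((k : ℝ) + 1) ^ 4 * 4 ^ k / δ ^ 2 + 5 * ((k : ℝ) + 1) ^ 4 * 4 ^ k := by ring
    rw [e1]
    have a1 : (((B.card + k : ℕ) : ℝ) + 1) ≤ 5 * ((k : ℝ) + 1) ^ 4 * 4 ^ k := by
      push_cast
      have h1 : (B.card : ℝ) + k + 1 ≤ 5 * ((k : ℝ) + 1) := by linarith
      have h2 : ((k : ℝ) + 1) ≤ ((k : ℝ) + 1) ^ 4 := by
        calc ((k : ℝ) + 1) = ((k : ℝ) + 1) ^ 1 := (pow_one _).symm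
          _ ≤ ((k : ℝ) + 1) ^ 4 := pow_le_pow_right₀ (by linarith) (by norm_num)
      have h3 : 5 * ((k : ℝ) + 1) ^ 4 ≤ 5 * ((k : ℝ) + 1) ^ 4 * 4 ^ k := by
        have : 0 ≤ 5 * ((k : ℝ) + 1) ^ 4 := by positivity
        nlinarith
      linarith
    have a2 : 2 * (4 : ℝ) ^ (B.card + k) *
        ((((B.card + k : ℕ) : ℝ) + 1) * (((B.card + k : ℕ) : ℝ) + 2)) ^ 2 / δ ^ 2 ≤
        80000 * ((k : ℝ) + 1) ^ 4 * 4 ^ k / δ ^ 2 := by
      apply div_le_div_of_nonneg_right _ (by positivity)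
      have b1 : (4 : ℝ) ^ (B.card + k) ≤ 64 * 4 ^ k := by
        rw [pow_add]
        apply mul_le_mul_of_nonneg_right _ (by positivity)
        calc (4 : ℝ) ^ B.card ≤ 4 ^ 3 := pow_le_pow_right₀ (by norm_num) hB
          _ = 64 := by norm_num
      have b2 : (((B.card + k : ℕ) : ℝ) + 1) ≤ 5 * ((k : ℝ) + 1) := by push_cast; linarith
      have b3 : (((B.card + k : ℕ) : ℝ) + 2) ≤ 5 * ((k : ℝ) + 1) := by push_cast; linarith
      have b4 : ((((B.card + k : ℕ) : ℝ) + 1) * (((B.card + k : ℕ) : ℝ) + 2)) ^ 2 ≤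
          ((5 * ((k : ℝ) + 1)) * (5 * ((k : ℝ) + 1))) ^ 2 := by
        apply pow_le_pow_left₀ (by positivity)
        exact mul_le_mul b2 b3 (by positivity) (by positivity)
      calc 2 * (4 : ℝ) ^ (B.card + k) *
          ((((B.card + k : ℕ) : ℝ) + 1) * (((B.card + k : ℕ) : ℝ) + 2)) ^ 2 ≤
          2 * (64 * 4 ^ k) * ((5 * ((k : ℝ) + 1)) * (5 * ((k : ℝ) + 1))) ^ 2 :=
            mul_le_mul (by linarith) b4 (by positivity) (by positivity)
        _ = 80000 * ((k : ℝ) + 1) ^ 4 * 4 ^ k := by ring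
    linarith
  refine ⟨s, hmono, fun k => ⟨by rw [hs]; exact hg1 _, hsB k⟩, fun k => ?_, fun K => ?_⟩
  · set D : ℝ := 80000 / δ ^ 2 + 5 with hD
    have hD0 : 0 < D := by positivity
    induction k with
    | zero =>
      have h1 := hg5 (P 0)
      have h2 := hb 0
      rw [← hs] at h1
      have h3 : (H ∩ Set.Iio (P 0).2) = ∅ := by
        rw [hP0]
        ext x
        simp
      rw [h3, Set.ncard_empty] at h1
      have e0 : D * (((0 : ℕ) : ℝ) + 1) ^ 4 * 4 ^ 0 = D := by norm_num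
      have e1 : 2 * D * (((0 : ℕ) : ℝ) + 1) ^ 4 * 4 ^ 0 = 2 * D := by norm_num
      rw [e0] at h2
      rw [e1]
      rw [Nat.cast_zero] at h1
      linarith
    | succ k ih =>
      have h1 := hg5 (P (k + 1))
      rw [← hs] at h1
      have h2 := hb (k + 1)
      have h3 : (H ∩ Set.Iio (P (k + 1)).2) ⊆ insert (s k) (H ∩ Set.Iio (s k)) := by
        rintro x ⟨hx, hx2⟩
        rw [hPs] at hx2
        simp only [Set.mem_Iio] at hx2
        rw [← hs k] at hx2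
        rcases (Nat.lt_succ_iff.1 hx2).lt_or_eq with h5 | h5
        · exact Or.inr ⟨hx, h5⟩
        · exact Or.inl h5
      have hfin : (H ∩ Set.Iio (s k)).Finite := (Set.finite_Iio _).subset Set.inter_subset_right
      have h4 : (H ∩ Set.Iio (P (k + 1)).2).ncard ≤ (H ∩ Set.Iio (s k)).ncard + 1 :=
        (Set.ncard_le_ncard h3 (hfin.insert _)).trans (Set.ncard_insert_le _ _)
      have h5 : ((H ∩ Set.Iio (P (k + 1)).2).ncard : ℝ) ≤ ((H ∩ Set.Iio (s k)).ncard : ℝ) + 1 := by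
        exact_mod_cast h4
      have h6 : 2 * D * ((k : ℝ) + 1) ^ 4 * 4 ^ k ≤
          1 / 2 * D * (((k + 1 : ℕ) : ℝ) + 1) ^ 4 * 4 ^ (k + 1) := by
        rw [pow_succ (4 : ℝ) k]
        have e1 : 1 / 2 * D * (((k + 1 : ℕ) : ℝ) + 1) ^ 4 * (4 ^ k * 4) =
            2 * D * (((k + 1 : ℕ) : ℝ) + 1) ^ 4 * 4 ^ k := by ring
        rw [e1]
        apply mul_le_mul_of_nonneg_right _ (by positivity)
        apply mul_le_mul_of_nonneg_left _ (by positivity)
        apply pow_le_pow_left₀ (by positivity)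
        push_cast
        linarith
      have h8 : 1 / 2 * D * (((k + 1 : ℕ) : ℝ) + 1) ^ 4 * 4 ^ (k + 1) +
          D * (((k + 1 : ℕ) : ℝ) + 1) ^ 4 * 4 ^ (k + 1) ≤
          2 * D * (((k + 1 : ℕ) : ℝ) + 1) ^ 4 * 4 ^ (k + 1) := by
        rw [← add_mul, ← add_mul]
        apply mul_le_mul_of_nonneg_right _ (by positivity)
        apply mul_le_mul_of_nonneg_right _ (by positivity)
        linarith
      linarith
  · rw [← hPi]
    -- telescoping
    have key : ∀ K : ℕ, ∀ᶠ N in (U : Filter ℕ), tot N (P K).1 ≤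
        tot N B + δ * (1 / ((B.card : ℝ) + 1) - 1 / ((B.card : ℝ) + K + 1)) := by
      intro K
      induction K with
      | zero =>
        refine Eventually.of_forall fun N => ?_
        rw [hP0]
        simp
      | succ K ih =>
        have h1 := hg4 (P K)
        unfold Good at h1
        filter_upwards [ih, h1] with N hN1 hN2
        rw [hPs]
        unfold tot at hN1 ⊢
        simp only
        rw [sum_powerset_insert (hg3 _)]
        unfold ex at hN2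
        rw [hPc] at hN2
        have e1 : δ / ((((B.card + K : ℕ) : ℝ) + 1) * (((B.card + K : ℕ) : ℝ) + 2)) =
            δ * (1 / (((B.card : ℝ) + K) + 1)) - δ * (1 / (((B.card : ℝ) + K) + 2)) := by
          push_cast
          field_simp
          ring
        rw [e1] at hN2
        push_cast
        have e2 : (B.card : ℝ) + (K + 1) + 1 = (B.card : ℝ) + K + 2 := by ring
        rw [e2]
        linarith
    filter_upwards [key K] with N hN
    refine hN.trans ?_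
    have h1 : 0 ≤ δ * (1 / ((B.card : ℝ) + K + 1)) := by positivity
    have h2 : 1 / ((B.card : ℝ) + 1) ≤ 1 := by
      rw [div_le_one (by positivity)]
      have : (0 : ℝ) ≤ B.card := Nat.cast_nonneg _
      linarith
    have h3 : δ * (1 / ((B.card : ℝ) + 1)) ≤ δ * 1 := mul_le_mul_of_nonneg_left h2 hδ.le
    linarith

/-- the mean value -/
lemma one_point {U : Ultrafilter ℕ} (hU : (U : Filter ℕ) ≤ atTop) {E : Set ℕ} (hE : Two E)
    (hUE : ∀ᶠ N in (U : Filter ℕ), N ∉ E) (a : ℕ) (δ : ℝ) (hδ : 0 < δ) :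
    ∀ᶠ N in (U : Filter ℕ), cc N {a} ≤ δ := by
  obtain ⟨M, hM⟩ := exists_nat_gt (8 / δ ^ 2)
  have hM0 : (0 : ℝ) < M := lt_trans (by positivity) hM
  set T : Finset ℕ := (range M).image fun i => a + i with hT
  have hTc : T.card = M := by
    rw [hT, card_image_of_injective _ (fun x y h => by simpa using h), card_range]
  set η : ℝ := 1 / ((T.card : ℝ) ^ 2 + 1) with hη
  have hη0 : 0 < η := by positivity
  have h2 : ∀ᶠ N in (U : Filter ℕ), ∀ a ∈ T, ∀ b ∈ T, a ≠ b →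
      |∑ n ∈ range N, l (n + a) * l (n + b)| ≤ η * N := by
    rw [eventually_all_finset]
    intro a ha
    rw [eventually_all_finset]
    intro b hb
    by_cases hab : a = b
    · exact Eventually.of_forall fun N h => absurd hab h
    · obtain ⟨N₀, hN₀⟩ := hE a b hab η hη0
      filter_upwards [hU (eventually_ge_atTop N₀), hUE] with N hN hNE _
      exact hN₀ N hN hNE
  obtain ⟨N₁, hN₁⟩ := exists_nat_ge (4 * (M : ℝ) / δ)
  filter_upwards [h2, hU (eventually_ge_atTop 1), hU (eventually_ge_atTop N₁)] with N hN2 hN3 hN4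
  have hN0 : (0 : ℝ) < N := by exact_mod_cast hN3
  have h4 := bessel T η N hN3 hη0.le hN2 (fun n => 1) (fun n => by norm_num)
  have h5 : η * (T.card : ℝ) ^ 2 ≤ 1 := by
    rw [hη, one_div, inv_mul_le_iff₀ (by positivity)]
    linarith
  by_contra hcon
  push Not at hcon
  have hi : ∀ h ∈ T, (δ / 2) ^ 2 ≤ ((∑ n ∈ range N, 1 * l (n + h)) / N) ^ 2 := by
    intro h hh
    rw [hT, mem_image] at hh
    obtain ⟨i, hi, rfl⟩ := hh
    rw [mem_range] at hi
    have h6 := sum_shift (fun n => l (n + a)) (fun n => (l_abs _).le) i N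
    have h7 : ∑ n ∈ range N, l (n + i + a) = ∑ n ∈ range N, l (n + (a + i)) :=
      sum_congr rfl fun n _ => by rw [show n + i + a = n + (a + i) by ring]
    have h6' := h6
    rw [h7] at h6'
    clear h6
    rename' h6' => h6
    have h8 : δ * N < |∑ n ∈ range N, l (n + a)| := by
      unfold cc at hcon
      simp only [prod_singleton] at hcon
      rw [lt_div_iff₀ hN0] at hcon
      exact hcon
    have h9 : 2 * (i : ℝ) ≤ δ / 2 * N := by
      have h10 : (i : ℝ) ≤ M := by exact_mod_cast hi.le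
      have h11 : (N₁ : ℝ) ≤ N := by exact_mod_cast hN4
      have h12 : 4 * (M : ℝ) / δ ≤ N := hN₁.trans h11
      rw [div_le_iff₀ hδ] at h12
      linarith
    have h10 : δ / 2 * N ≤ |∑ n ∈ range N, l (n + (a + i))| := by
      have h11 := abs_sub_abs_le_abs_sub (∑ n ∈ range N, l (n + a)) (∑ n ∈ range N, l (n + (a + i)))
      rw [abs_sub_comm] at h11
      linarith
    rw [← sq_abs ((∑ n ∈ range N, 1 * l (n + (a + i))) / N)]
    apply pow_le_pow_left₀ (by positivity)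
    simp only [one_mul]
    rw [abs_div, abs_of_pos hN0, le_div_iff₀ hN0]
    exact h10
  have hs : (T.card : ℝ) * (δ / 2) ^ 2 ≤ 2 := by
    calc (T.card : ℝ) * (δ / 2) ^ 2 = ∑ h ∈ T, (δ / 2) ^ 2 := by rw [sum_const, nsmul_eq_mul]
      _ ≤ ∑ h ∈ T, ((∑ n ∈ range N, 1 * l (n + h)) / N) ^ 2 := sum_le_sum hi
      _ ≤ 2 := by linarith
  rw [hTc] at hs
  rw [div_lt_iff₀ (by positivity)] at hM
  nlinarith

/-- the total of the correlations of at most two places -/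
lemma tot_two {U : Ultrafilter ℕ} (hU : (U : Filter ℕ) ≤ atTop) {E : Set ℕ} (hE : Two E)
    (hUE : ∀ᶠ N in (U : Filter ℕ), N ∉ E) (B : Finset ℕ) (hB : B.card ≤ 3) (δ : ℝ) (hδ : 0 < δ) :
    ∀ᶠ N in (U : Filter ℕ), ∑ A ∈ B.powerset.filter (fun A => A.card ≤ 2), cc N A ≤ 1 + δ := by
  have h1 : ∀ A ∈ B.powerset, A.card ≤ 2 → A ≠ ∅ → ∀ᶠ N in (U : Filter ℕ), cc N A ≤ δ / 8 := by
    intro A _ hA2 hA0
    have h2 : A.card = 1 ∨ A.card = 2 := by
      have := card_pos.2 (nonempty_iff_ne_empty.2 hA0)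
      omega
    rcases h2 with h2 | h2
    · obtain ⟨a, rfl⟩ := card_eq_one.1 h2
      exact one_point hU hE hUE a _ (by positivity)
    · obtain ⟨a, b, hab, rfl⟩ := card_eq_two.1 h2
      obtain ⟨N₀, hN₀⟩ := hE a b hab (δ / 8) (by positivity)
      filter_upwards [hU (eventually_ge_atTop N₀), hUE, hU (eventually_ge_atTop 1)] with N hN hNE hN1
      have hN0 : (0 : ℝ) < N := by exact_mod_cast hN1
      unfold cc
      rw [div_le_iff₀ hN0]
      have h3 : ∑ n ∈ range N, ∏ h ∈ ({a, b} : Finset ℕ), l (n + h) =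
          ∑ n ∈ range N, l (n + a) * l (n + b) :=
        sum_congr rfl fun n _ => by rw [prod_pair hab]
      rw [h3]
      exact hN₀ N hN hNE
  have h2 : ∀ᶠ N in (U : Filter ℕ), ∀ A ∈ B.powerset, A.card ≤ 2 → A ≠ ∅ → cc N A ≤ δ / 8 := by
    rw [eventually_all_finset]
    intro A hA
    by_cases hc : A.card ≤ 2 ∧ A ≠ ∅
    · filter_upwards [h1 A hA hc.1 hc.2] with N hN _ _
      exact hN
    · exact Eventually.of_forall fun N h3 h4 => absurd ⟨h3, h4⟩ hc
  filter_upwards [h2, hU (eventually_ge_atTop 1)] with N hN hN1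
  have hN0 : (0 : ℝ) < N := by exact_mod_cast hN1
  have h3 : ∅ ∈ B.powerset.filter (fun A => A.card ≤ 2) := by
    rw [mem_filter]
    exact ⟨empty_mem_powerset _, by simp⟩
  rw [← add_sum_erase _ _ h3]
  have h4 : cc N ∅ = 1 := by
    unfold cc
    simp [hN0.ne']
  rw [h4]
  have h5 : ∑ A ∈ (B.powerset.filter (fun A => A.card ≤ 2)).erase ∅, cc N A ≤
      ∑ A ∈ (B.powerset.filter (fun A => A.card ≤ 2)).erase ∅, δ / 8 := by
    refine sum_le_sum fun A hA => ?_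
    rw [mem_erase, mem_filter] at hA
    exact hN A hA.2.1 hA.2.2 hA.1
  have h6 : (((B.powerset.filter (fun A => A.card ≤ 2)).erase ∅).card : ℝ) ≤ 8 := by
    have h7 : ((B.powerset.filter (fun A => A.card ≤ 2)).erase ∅).card ≤ B.powerset.card :=
      (card_le_card (erase_subset _ _)).trans (card_le_card (filter_subset _ _))
    rw [card_powerset] at h7
    have h8 : 2 ^ B.card ≤ 2 ^ 3 := Nat.pow_le_pow_right (by norm_num) hB
    exact_mod_cast h7.trans h8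
  rw [sum_const, nsmul_eq_mul] at h5
  have h7 : (((B.powerset.filter (fun A => A.card ≤ 2)).erase ∅).card : ℝ) * (δ / 8) ≤ 8 * (δ / 8) :=
    mul_le_mul_of_nonneg_right h6 (by positivity)
  linarith

/-- the triple correlation -/
lemma three_point {E' : Set ℕ} {c : ℝ} (hc : ∀ a b : Fin 3 → ℕ, (∀ i, 1 ≤ a i) →
    (∀ i j, i ≠ j → a i * b j ≠ a j * b i) →
      ∃ N₀ : ℕ, ∀ N : ℕ, N₀ ≤ N → N ∉ E' → |∑ n ∈ Icc 1 N, FF a b n| ≤ (1 - c) * N) (hc0 : 0 < c)
    {U : Ultrafilter ℕ} (hU : (U : Filter ℕ) ≤ atTop)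
    (hUE : ∀ᶠ N in (U : Filter ℕ), N ∉ E') (B : Finset ℕ) (hB : B.card = 3) :
    ∀ᶠ N in (U : Filter ℕ), cc N B ≤ 1 - c / 2 := by
  obtain ⟨x, y, z, hxy, hxz, hyz, rfl⟩ := card_eq_three.1 hB
  obtain ⟨N₀, hN₀⟩ := hc (fun _ => 1) ![x, y, z] (fun _ => le_rfl) (by
    intro i j hij
    fin_cases i <;> fin_cases j <;> simp_all <;> omega)
  obtain ⟨N₁, hN₁⟩ := exists_nat_ge (4 / c)
  filter_upwards [hU (eventually_ge_atTop N₀), hUE, hU (eventually_ge_atTop 1),
    hU (eventually_ge_atTop N₁)] with N hN hNE hN1 hN2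
  have hN0 : (0 : ℝ) < N := by exact_mod_cast hN1
  have h1 := hN₀ N hN hNE
  unfold cc
  rw [div_le_iff₀ hN0]
  have h2 : ∀ n, FF (fun _ => 1) ![x, y, z] n = ∏ h ∈ ({x, y, z} : Finset ℕ), l (n + h) := by
    intro n
    rw [prod_insert (by simp [hxy, hxz]), prod_insert (by simp [hyz]), prod_singleton]
    unfold FF
    rw [Fin.prod_univ_three]
    simp only [one_mul]
    rw [mul_assoc]
    rfl
  rw [sum_congr rfl fun n _ => h2 n] at h1
  have h3 : |∑ n ∈ range N, ∏ h ∈ ({x, y, z} : Finset ℕ), l (n + h) -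
      ∑ n ∈ Icc 1 N, ∏ h ∈ ({x, y, z} : Finset ℕ), l (n + h)| ≤ 2 := by
    have e1 : ∑ n ∈ range (N + 1), ∏ h ∈ ({x, y, z} : Finset ℕ), l (n + h) =
        ∑ n ∈ Icc 1 N, ∏ h ∈ ({x, y, z} : Finset ℕ), l (n + h) + ∏ h ∈ ({x, y, z} : Finset ℕ), l (0 + h) := by
      have e0 : range (N + 1) = insert 0 (Icc 1 N) := by
        ext x
        rw [mem_range, mem_insert, mem_Icc]
        omega
      rw [e0, sum_insert (by simp), add_comm]
    rw [sum_range_succ] at e1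
    have e2 : ∑ n ∈ range N, ∏ h ∈ ({x, y, z} : Finset ℕ), l (n + h) -
        ∑ n ∈ Icc 1 N, ∏ h ∈ ({x, y, z} : Finset ℕ), l (n + h) =
        ∏ h ∈ ({x, y, z} : Finset ℕ), l (0 + h) - ∏ h ∈ ({x, y, z} : Finset ℕ), l (N + h) := by linarith
    rw [e2]
    refine (abs_sub _ _).trans ?_
    rw [prod_abs, prod_abs]
    norm_num
  have h4 := abs_sub_abs_le_abs_sub (∑ n ∈ range N, ∏ h ∈ ({x, y, z} : Finset ℕ), l (n + h))
    (∑ n ∈ Icc 1 N, ∏ h ∈ ({x, y, z} : Finset ℕ), l (n + h))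
  have h5 : 2 ≤ c / 2 * N := by
    have h6 : (N₁ : ℝ) ≤ N := by exact_mod_cast hN2
    have h7 : 4 / c ≤ N := hN₁.trans h6
    rw [div_le_iff₀ hc0] at h7
    linarith
  linarith

end Pool.Agent.K9h52.Ind
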