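import Pool.Agent.K9h52.Ind4

/-!
K9h52: infinite sets of places with all the sign patterns of the Liouville function, together with
three given places.
-/

set_option autoImplicit false

namespace Pool.Agent.K9h52.Ind

open Finset Filter Topology
open Pool.Agent.R509.TT (l l_pm)
open Pool.Agent.Y958.U (LZ LZ_iff LZ_union LZ_bdd lam_final FF)

open Classical in
/-- the scale condition -/
lemma from_tot (G : Finset ℕ) (N : ℕ) (hN : 1 ≤ N) (t δ : ℝ) (hδ : 0 < δ) (ht : tot N G ≤ 1 + t)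
    (hN2 : 2 ^ G.card / δ ≤ (N : ℝ))
    (ε : ℕ → ℝ) (hε : ∀ h ∈ G, ε h = 1 ∨ ε h = -1) :
    |(((Icc 1 N).filter fun m => ∀ h ∈ G, l (m + h) = ε h).card : ℝ) - N / 2 ^ G.card| ≤
      (t + δ) * (N / 2 ^ G.card) := by
  have hN0 : (0 : ℝ) < N := by exact_mod_cast hN
  have hc := count G ε hε N hN
  have hpos : (0 : ℝ) ≤ (N : ℝ) / 2 ^ G.card := by positivity
  have h2 : (tot N G - 1) * ((N : ℝ) / 2 ^ G.card) ≤ t * (N / 2 ^ G.card) :=
    mul_le_mul_of_nonneg_right (by linarith) hpos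
  have h5 : |((((Icc 1 N).filter fun m => ∀ h ∈ G, l (m + h) = ε h).card : ℝ)) -
      ((range N).filter (fun n => ∀ h ∈ G, l (n + h) = ε h)).card| ≤ 1 := by
    have a1 : (Icc 1 N).filter (fun m => ∀ h ∈ G, l (m + h) = ε h) ⊆
        insert N ((range N).filter (fun n => ∀ h ∈ G, l (n + h) = ε h)) := by
      intro m hm
      rw [mem_filter, mem_Icc] at hm
      rw [mem_insert, mem_filter, mem_range]
      rcases hm.1.2.lt_or_eq with h | h
      · exact Or.inr ⟨h, hm.2⟩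
      · exact Or.inl h
    have a2 : (range N).filter (fun n => ∀ h ∈ G, l (n + h) = ε h) ⊆
        insert 0 ((Icc 1 N).filter (fun m => ∀ h ∈ G, l (m + h) = ε h)) := by
      intro m hm
      rw [mem_filter, mem_range] at hm
      rw [mem_insert, mem_filter, mem_Icc]
      rcases Nat.eq_zero_or_pos m with h | h
      · exact Or.inl h
      · exact Or.inr ⟨⟨h, hm.1.le⟩, hm.2⟩
    have b1 := (card_le_card a1).trans (card_insert_le _ _)
    have b2 := (card_le_card a2).trans (card_insert_le _ _)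
    rw [abs_le]
    constructor
    · have : (((range N).filter (fun n => ∀ h ∈ G, l (n + h) = ε h)).card : ℝ) ≤
          ((Icc 1 N).filter (fun m => ∀ h ∈ G, l (m + h) = ε h)).card + 1 := by exact_mod_cast b2
      linarith
    · have : (((Icc 1 N).filter (fun m => ∀ h ∈ G, l (m + h) = ε h)).card : ℝ) ≤
          ((range N).filter (fun n => ∀ h ∈ G, l (n + h) = ε h)).card + 1 := by exact_mod_cast b1
      linarith
  have h6 : (1 : ℝ) ≤ δ * (N / 2 ^ G.card) := by
    rw [div_le_iff₀ hδ] at hN2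
    rw [mul_div_assoc', le_div_iff₀ (by positivity)]
    linarith
  have h8 := abs_sub_le (((((Icc 1 N).filter fun m => ∀ h ∈ G, l (m + h) = ε h).card : ℝ)))
    (((range N).filter (fun n => ∀ h ∈ G, l (n + h) = ε h)).card : ℝ) (N / 2 ^ G.card)
  linarith

/-- the patterns on `B` and on the places `s k` -/
def Pat (B : Finset ℕ) (s : ℕ → ℕ) (F : Finset ℕ) (ε : ℕ → ℝ) (m : ℕ) : Prop :=
  (∀ b ∈ B, l (m + b) = ε b) ∧ ∀ k ∈ F, l (m + s k) = ε (s k)

open Classical in
/-- **main theorem** -/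
theorem main' : ∃ c : ℝ, 0 < c ∧ ∀ δ : ℝ, 0 < δ → ∃ C : ℝ, ∀ (B : Finset ℕ) (H : Set ℕ), B.card ≤ 3 →
    H.Infinite → ∃ s X : ℕ → ℕ, StrictMono s ∧ StrictMono X ∧
    (∀ k, s k ∈ H ∧ s k ∉ B ∧ ((H ∩ Set.Iio (s k)).ncard : ℝ) ≤ C * ((k : ℝ) + 1) ^ 4 * 4 ^ k) ∧
    ∀ F : Finset ℕ, ∃ i₀ : ℕ, ∀ i, i₀ ≤ i → ∀ ε : ℕ → ℝ, (∀ h, ε h = 1 ∨ ε h = -1) →
      c * (X i / 2 ^ (B.card + F.card)) ≤ (((Icc 1 (X i)).filter fun m => Pat B s F ε m).card : ℝ) ∧
      (B.card ≤ 2 → |(((Icc 1 (X i)).filter fun m => Pat B s F ε m).card : ℝ) -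
        X i / 2 ^ (B.card + F.card)| ≤ δ * (X i / 2 ^ (B.card + F.card))) := by
  obtain ⟨E₁, hEZ₁, hE₁⟩ := exists_two
  obtain ⟨c, E₂, hc, hEZ₂, hE₂⟩ := lam_final
  obtain ⟨U, hU, hUE⟩ := exists_U (LZ_union hEZ₁ hEZ₂)
  have hU1 : ∀ᶠ N in (U : Filter ℕ), N ∉ E₁ := hUE.mono fun N h h' => h (Or.inl h')
  have hU2 : ∀ᶠ N in (U : Filter ℕ), N ∉ E₂ := hUE.mono fun N h h' => h (Or.inr h')
  have h3c := hc 3
  refine ⟨min (c 3 / 4) (1 / 4), lt_min (by positivity) (by norm_num), fun δ' hδ' => ?_⟩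
  obtain ⟨δ, hδ, hδ1, hδ2, hδ3⟩ : ∃ δ : ℝ, 0 < δ ∧ δ ≤ δ' ∧ δ ≤ c 3 / 4 ∧ δ ≤ 1 / 4 :=
    ⟨min δ' (min (c 3 / 4) (1 / 4)), lt_min hδ' (lt_min (by positivity) (by norm_num)), min_le_left _ _,
      (min_le_right _ _).trans (min_le_left _ _), (min_le_right _ _).trans (min_le_right _ _)⟩
  refine ⟨2 * (80000 / (δ / 3) ^ 2 + 5), fun B H hB hH => ?_⟩
  obtain ⟨s, hs, hsH, hsc, hst⟩ := construct' hU hE₁ hU1 (δ / 3) (by positivity) B hB H hH
  -- the bound for B
  have hBt : ∀ᶠ N in (U : Filter ℕ), tot N B ≤ 1 + (if B.card ≤ 2 then 0 else 1 - c 3 / 2) + δ / 3 := by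
    have h1 := tot_two hU hE₁ hU1 B hB (δ / 3) (by positivity)
    by_cases hB2 : B.card ≤ 2
    · filter_upwards [h1] with N hN
      rw [if_pos hB2, add_zero]
      unfold tot
      rwa [filter_true_of_mem] at hN
      intro A hA
      exact (card_le_card (mem_powerset.1 hA)).trans hB2
    · have hB3 : B.card = 3 := by omega
      have h2 := three_point (c := c 3) (fun a b ha hab => (hE₂ 3 (by norm_num) a b ha hab).1) h3c hU hU2
        B hB3
      filter_upwards [h1, h2] with N hN1 hN2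
      rw [if_neg hB2]
      unfold tot
      rw [← sum_filter_add_sum_filter_not B.powerset (fun A => A.card ≤ 2)]
      have h3 : B.powerset.filter (fun A => ¬ A.card ≤ 2) = {B} := by
        ext A
        rw [mem_filter, mem_powerset, mem_singleton]
        constructor
        · rintro ⟨h4, h5⟩
          exact eq_of_subset_of_card_le h4 (by omega)
        · rintro rfl
          exact ⟨subset_rfl, by omega⟩
      rw [h3, sum_singleton]
      linarith
  -- the scales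
  have hX : ∀ i p : ℕ, ∃ N : ℕ, p < N ∧ tot N (B ∪ (range i).image s) ≤
      1 + ((if B.card ≤ 2 then 0 else 1 - c 3 / 2) + 2 * (δ / 3)) := by
    intro i p
    obtain ⟨N, ⟨h1, h2⟩, h3⟩ := (((hst i).and (hU (eventually_gt_atTop p))).and hBt).exists
    exact ⟨N, h2, by linarith⟩
  choose g hg1 hg2 using hX
  obtain ⟨X, hX0, hXs⟩ : ∃ X : ℕ → ℕ, X 0 = g 0 0 ∧ ∀ i, X (i + 1) = g (i + 1) (X i) :=
    ⟨fun n => Nat.rec (g 0 0) (fun i p => g (i + 1) p) n, rfl, fun i => rfl⟩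
  have hXm : StrictMono X := strictMono_nat_of_lt_succ fun i => by rw [hXs]; exact hg1 _ _
  have hXt : ∀ i, tot (X i) (B ∪ (range i).image s) ≤
      1 + ((if B.card ≤ 2 then 0 else 1 - c 3 / 2) + 2 * (δ / 3)) := by
    intro i
    cases i with
    | zero => rw [hX0]; exact hg2 _ _
    | succ i => rw [hXs]; exact hg2 _ _
  refine ⟨s, X, hs, hXm, fun k => ⟨(hsH k).1, (hsH k).2, hsc k⟩, fun F => ?_⟩
  obtain ⟨i₁, hi₁⟩ := exists_nat_ge (2 ^ (B ∪ F.image s).card / (δ / 3))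
  refine ⟨max (F.sup id + 1) (i₁ + 1), fun i hi ε hε => ?_⟩
  have hFi : F ⊆ range i := by
    intro k hk
    rw [mem_range]
    have h1 : k ≤ F.sup id := le_sup (f := id) hk
    have h2 := le_trans (le_max_left _ _) hi
    omega
  have hiX : i ≤ X i := hXm.id_le i
  have hi1 : i₁ + 1 ≤ i := le_trans (le_max_right _ _) hi
  have hX1 : 1 ≤ X i := by omega
  have hXi1 : (i₁ : ℝ) ≤ X i := by exact_mod_cast (by omega : i₁ ≤ X i)
  have hcard : (B ∪ F.image s).card = B.card + F.card := by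
    rw [card_union_of_disjoint, card_image_of_injective F hs.injective]
    rw [disjoint_left]
    intro x hx hx2
    rw [mem_image] at hx2
    obtain ⟨k, hk, rfl⟩ := hx2
    exact (hsH k).2 hx
  have h1 : tot (X i) (B ∪ F.image s) ≤ 1 + ((if B.card ≤ 2 then 0 else 1 - c 3 / 2) + 2 * (δ / 3)) :=
    (tot_mono _ (union_subset_union_right (image_subset_image hFi))).trans (hXt i)
  have h2 := from_tot (B ∪ F.image s) (X i) hX1 _ (δ / 3) (by positivity) h1 (hi₁.trans hXi1) ε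
    (fun h _ => hε h)
  have h3 : (Icc 1 (X i)).filter (fun m => ∀ h ∈ B ∪ F.image s, l (m + h) = ε h) =
      (Icc 1 (X i)).filter (fun m => Pat B s F ε m) := by
    refine filter_congr fun m _ => ?_
    unfold Pat
    constructor
    · intro h
      exact ⟨fun b hb => h b (mem_union_left _ hb),
        fun k hk => h (s k) (mem_union_right _ (mem_image_of_mem _ hk))⟩
    · rintro ⟨h4, h5⟩ x hx
      rcases mem_union.1 hx with hx | hx
      · exact h4 x hx
      · obtain ⟨k, hk, rfl⟩ := mem_image.1 hx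
        exact h5 k hk
  rw [h3, hcard] at h2
  have hpos : (0 : ℝ) ≤ (X i : ℝ) / 2 ^ (B.card + F.card) := by positivity
  constructor
  · have h4 : (if B.card ≤ 2 then (0 : ℝ) else 1 - c 3 / 2) + 2 * (δ / 3) + δ / 3 ≤
        1 - min (c 3 / 4) (1 / 4) := by
      have m1 := min_le_left (c 3 / 4) (1 / 4)
      have m2 := min_le_right (c 3 / 4) (1 / 4)
      split_ifs
      · linarith
      · linarith
    have h5 := (abs_le.1 h2).1
    have h6 := mul_le_mul_of_nonneg_right h4 hpos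
    have h7 : (1 - min (c 3 / 4) (1 / 4)) * ((X i : ℝ) / 2 ^ (B.card + F.card)) =
        (X i : ℝ) / 2 ^ (B.card + F.card) - min (c 3 / 4) (1 / 4) * ((X i : ℝ) / 2 ^ (B.card + F.card)) := by
      ring
    linarith
  · intro hB2
    rw [if_pos hB2] at h2
    refine h2.trans (mul_le_mul_of_nonneg_right ?_ hpos)
    linarith

end Pool.Agent.K9h52.Ind
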